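import Pool.Agent.H.MP_353193_lc.Defs

/-!
# The ordinals omega_n and the levels
-/

set_option autoImplicit false

open Cardinal Ordinal Set

namespace Pool.Agent.H.MP_353193_lc

/-- `om` is strictly increasing (`Cardinal.aleph` and `Cardinal.ord` are). -/
theorem om_lt_om {m n : ℕ} (h : m < n) : om m < om n := by
  unfold om
  rw [ord_lt_ord, aleph_lt_aleph]
  exact_mod_cast h

/-- Every ordinal below `ω_ω` is below some `ω_{n+1}`: `(aleph ω).ord` is the supremum of the `(aleph n).ord`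
(e.g. `β.card < aleph ω` implies `β.card ≤ aleph n` for some `n`, use `Cardinal.aleph_limit` or that `aleph` is normal,
`Cardinal.lt_ord`). -/
theorem exists_lt_om {β : Ordinal.{0}} (h : β < omω) : ∃ n : ℕ, β < om (n + 1) := by
  unfold omω at h
  rw [lt_ord] at h
  have h1 : ∃ o < (Ordinal.omega0 : Ordinal.{0}), β.card < Cardinal.aleph o :=
    (isNormal_aleph.lt_iff_exists_lt isSuccLimit_omega0).1 h
  obtain ⟨o, ho, h2⟩ := h1
  obtain ⟨n, rfl⟩ := Ordinal.lt_omega0.1 ho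
  refine ⟨n, ?_⟩
  refine lt_trans (b := om n) ?_ (om_lt_om (Nat.lt_succ_self n))
  unfold om
  rw [lt_ord]
  exact h2

/-- `om n < omω`. -/
theorem om_lt_omω (n : ℕ) : om n < omω := by
  unfold om omω
  rw [ord_lt_ord, aleph_lt_aleph]
  exact Ordinal.natCast_lt_omega0 n

/-- `R` is monotone in `θ`. -/
theorem R_mono {θ θ' : Ordinal.{0}} (h : θ ≤ θ') : R θ ⊆ R θ' := by
  rintro f ⟨h1, β, hβ, h2⟩
  exact ⟨h1, β, lt_of_lt_of_le hβ h, h2⟩

/-- Each member of `R omω` belongs to `R (om (n+1))` for some `n`, and to `R (om (lev x + 1))`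
(`Nat.sInf_mem`). -/
theorem mem_R_lev {x : Seq} (h : x ∈ R omω) : x ∈ R (om (lev x + 1)) := by
  obtain ⟨h1, β, hβ, h2⟩ := h
  obtain ⟨n, hn⟩ := exists_lt_om hβ
  have h3 : {n : ℕ | x ∈ R (om (n + 1))}.Nonempty := ⟨n, h1, β, hn, h2⟩
  exact Nat.sInf_mem h3

end Pool.Agent.H.MP_353193_lc
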