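import Pool.Agent.H.MP_353193_lc.Defs

/-!
# The lexicographic order
-/

set_option autoImplicit false

open Cardinal Ordinal Set

namespace Pool.Agent.H.MP_353193_lc

/-- The lexicographic order is irreflexive and asymmetric. -/
theorem lexlt_asymm {x y : Seq} (h : lexlt x y) : ¬ lexlt y x := by
  obtain ⟨ν, h1, h2, h3⟩ := h
  rintro ⟨μ, h4, h5, h6⟩
  rcases lt_trichotomy ν μ with h | h | h
  · have h7 := h4 ν h
    rw [h2, h3] at h7
    exact Bool.noConfusion h7
  · subst h
    rw [h2] at h6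
    exact Bool.noConfusion h6
  · have h7 := h1 μ h
    rw [h5, h6] at h7
    exact Bool.noConfusion h7

/-- Transitivity of the lexicographic order. -/
theorem lexlt_trans {x y z : Seq} (h : lexlt x y) (h' : lexlt y z) : lexlt x z := by
  obtain ⟨ν, h1, h2, h3⟩ := h
  obtain ⟨μ, h4, h5, h6⟩ := h'
  rcases lt_trichotomy ν μ with h | h | h
  · exact ⟨ν, fun κ hκ => (h1 κ hκ).trans (h4 κ (hκ.trans h)), h2, (h4 ν h).symm.trans h3⟩
  · subst h
    rw [h3] at h5
    exact Bool.noConfusion h5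
  · exact ⟨μ, fun κ hκ => (h1 κ (hκ.trans h)).trans (h4 κ hκ), (h1 μ h).trans h5, h6⟩

/-- Two different sequences differ at a least index. -/
private theorem B2_min {x y : Ordinal.{0} → Bool} {s : Set Ordinal.{0}}
    (h : ∃ ν ∈ s, x ν ≠ y ν) : ∃ ν ∈ s, x ν ≠ y ν ∧ ∀ μ ∈ s, μ < ν → x μ = y μ := by
  obtain ⟨ν, ⟨h1, h2⟩, h3⟩ := WellFounded.has_min (wellFounded_lt (α := Ordinal.{0}))
    {ν | ν ∈ s ∧ x ν ≠ y ν} h
  refine ⟨ν, h1, h2, fun μ hμ hlt => ?_⟩
  by_contra hne
  exact h3 μ ⟨hμ, hne⟩ hlt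

/-- Trichotomy: two different sequences are comparable (take the least index where they differ). -/
theorem lexlt_total {x y : Seq} (h : x ≠ y) : lexlt x y ∨ lexlt y x := by
  obtain ⟨ν0, hν0⟩ := Function.ne_iff.1 h
  obtain ⟨ν, -, h1, h2⟩ := B2_min (s := Set.univ) ⟨ν0, trivial, hν0⟩
  cases hx : x ν with
  | false =>
    left
    refine ⟨ν, fun μ hμ => h2 μ trivial hμ, hx, ?_⟩
    cases hy : y ν with
    | false => exact absurd (hx.trans hy.symm) h1
    | true => rfl
  | true =>
    right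
    refine ⟨ν, fun μ hμ => (h2 μ trivial hμ).symm, ?_, hx⟩
    cases hy : y ν with
    | true => exact absurd (hx.trans hy.symm) h1
    | false => rfl

/-- A cone is convex: if `x, z` extend `u` and `x < y < z` then `y` extends `u`. (Let `μ < u.len` be the least index with
`y μ ≠ u.fn μ`; if `y μ = true` then `z < y`, if `y μ = false` then `y < x`.) -/
theorem cone_convex {u : Nd} {x y z : Seq} (hx : x ∈ cone u) (hz : z ∈ cone u) (h1 : lexlt x y) (h2 : lexlt y z) :
    y ∈ cone u := by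
  by_contra hne
  have h3 : ∃ ν ∈ {ν : Ordinal.{0} | ν < u.len}, y ν ≠ u.fn ν := by
    by_contra h4
    push Not at h4
    exact hne fun μ hμ => h4 μ hμ
  obtain ⟨μ, hμ, h4, h5⟩ := B2_min h3
  have h6 : μ < u.len := hμ
  cases hy : y μ with
  | true =>
    have hu : u.fn μ = false := by
      cases hu : u.fn μ with
      | true => exact absurd (hy.trans hu.symm) h4
      | false => rfl
    refine lexlt_asymm h2 ⟨μ, fun κ hκ => ?_, (hz μ h6).trans hu, hy⟩
    rw [hz κ (hκ.trans h6)]
    exact (h5 κ (hκ.trans h6) hκ).symm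
  | false =>
    have hu : u.fn μ = true := by
      cases hu : u.fn μ with
      | false => exact absurd (hy.trans hu.symm) h4
      | true => rfl
    refine lexlt_asymm h1 ⟨μ, fun κ hκ => ?_, hy, (hx μ h6).trans hu⟩
    rw [hx κ (hκ.trans h6)]
    exact h5 κ (hκ.trans h6) hκ

end Pool.Agent.H.MP_353193_lc
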