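import Pool.Agent.H.MP_353193_lc.B1

/-!
# Branches of schemes
-/

set_option autoImplicit false

open Cardinal Ordinal Set

namespace Pool.Agent.H.MP_353193_lc

/-- Countable suprema of ordinals below `ω_{n+1}` stay below (the cofinality of `ω_{n+1}` is `aleph (n+1) > aleph 0`). -/
theorem blen_lt {n : ℕ} (σ : Scheme (om (n + 1))) (b : ℕ → Bool) : blen σ b < om (n + 1) := by
  unfold blen
  apply Ordinal.lift_iSup_lt_of_lt_cof
  · have h1 : (om (n + 1)).cof = Cardinal.aleph ((n : Ordinal.{0}) + 1) := by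
      unfold om
      have h2 : (((n + 1 : ℕ) : Ordinal.{0})) = (n : Ordinal.{0}) + 1 := by push_cast; rfl
      rw [h2]
      exact (Cardinal.isRegular_aleph_add_one (n : Ordinal.{0})).cof_ord
    rw [Ordinal.lift_id, h1]
    simp only [Cardinal.mk_nat, Cardinal.lift_aleph0]
    refine lt_of_le_of_lt (Cardinal.aleph0_le_aleph 0) ?_
    apply Cardinal.aleph_lt_aleph.2
    exact lt_of_lt_of_le zero_lt_one (le_add_self)
  · intro k
    exact σ.lt _

/-- The lengths along a branch are nondecreasing, and the nodes along a branch extend each other. -/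
theorem pre_mono {θ : Ordinal.{0}} (σ : Scheme θ) (b : ℕ → Bool) {k l : ℕ} (h : k ≤ l) :
    (σ.nd (pre b k)).len ≤ (σ.nd (pre b l)).len ∧
      ∀ μ, μ < (σ.nd (pre b k)).len → (σ.nd (pre b l)).fn μ = (σ.nd (pre b k)).fn μ := by
  induction l, h using Nat.le_induction with
  | base => exact ⟨le_rfl, fun _ _ => rfl⟩
  | succ l hl ih =>
    have h1 := σ.ext (pre b l) (b l)
    refine ⟨ih.1.trans h1.1, fun μ hμ => ?_⟩
    rw [← ih.2 μ hμ]
    exact h1.2 μ (lt_of_lt_of_le hμ ih.1)

/-- If `x` lies in the cone of the branch, the cone consists of the `y` that agree with `x` below `blen σ b`.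
(`μ < blen σ b = sup len` iff `μ < (σ.nd (pre b k)).len` for some `k`; the supremum is over a countable family of
ordinals of universe 0, hence bounded: `Ordinal.lt_iSup_iff` or similar.) -/
theorem mem_Cs_iff {θ : Ordinal.{0}} (σ : Scheme θ) (b : ℕ → Bool) {x : Seq} (hx : x ∈ Cs σ b) (y : Seq) :
    y ∈ Cs σ b ↔ ∀ μ, μ < blen σ b → y μ = x μ := by
  constructor
  · intro hy μ hμ
    unfold blen at hμ
    obtain ⟨k, hk⟩ := Ordinal.lt_iSup_iff.1 hμ
    rw [hy k μ hk, hx k μ hk]
  · intro h k μ hμ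
    rw [h μ (Ordinal.lt_iSup_iff.2 ⟨k, hμ⟩)]
    exact hx k μ hμ

/-- Two branch cones that meet are nested: with `x` in both, compare the two lengths, `mem_Cs_iff`. -/
theorem Cs_nested {θ θ' : Ordinal.{0}} (σ : Scheme θ) (b : ℕ → Bool) (σ' : Scheme θ') (b' : ℕ → Bool)
    (h : (Cs σ b ∩ Cs σ' b').Nonempty) : Cs σ b ⊆ Cs σ' b' ∨ Cs σ' b' ⊆ Cs σ b := by
  obtain ⟨x, hx, hx'⟩ := h
  rcases le_total (blen σ b) (blen σ' b') with h1 | h1
  · right
    intro y hy
    rw [mem_Cs_iff σ' b' hx'] at hy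
    rw [mem_Cs_iff σ b hx]
    exact fun μ hμ => hy μ (lt_of_lt_of_le hμ h1)
  · left
    intro y hy
    rw [mem_Cs_iff σ b hx] at hy
    rw [mem_Cs_iff σ' b' hx']
    exact fun μ hμ => hy μ (lt_of_lt_of_le hμ h1)

end Pool.Agent.H.MP_353193_lc
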