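import Pool.Agent.H.MP_353193_lc.B3

/-!
# Branches of schemes, part 2
-/

set_option autoImplicit false

open Cardinal Ordinal Set

namespace Pool.Agent.H.MP_353193_lc

/-- Different branches of one scheme have disjoint cones: let `k` be least with `b k ≠ b' k`; then `pre b k = pre b' k = s`
and by `perp` the nodes `σ.nd (false :: s)`, `σ.nd (true :: s)` differ at some `μ` below both lengths. -/
theorem Cs_disjoint {θ : Ordinal.{0}} (σ : Scheme θ) {b b' : ℕ → Bool} (h : b ≠ b') :
    Disjoint (Cs σ b) (Cs σ b') := by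
  classical
  have hex : ∃ k, b k ≠ b' k := by
    by_contra hc
    push Not at hc
    exact h (funext hc)
  have hk := Nat.find_spec hex
  have hlt : ∀ j, j < Nat.find hex → b j = b' j := fun j hj => not_not.1 (Nat.find_min hex hj)
  generalize Nat.find hex = k at hk hlt
  have hpre : ∀ j, j ≤ k → pre b j = pre b' j := by
    intro j
    induction j with
    | zero => exact fun _ => rfl
    | succ j ih =>
      intro hj
      have h1 := ih (by omega)
      have h2 := hlt j (by omega)
      simp only [pre, h1, h2]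
  rw [Set.disjoint_left]
  intro x hx hx'
  have h1 := hx (k + 1)
  have h2 := hx' (k + 1)
  simp only [pre, hpre k le_rfl] at h1 h2
  obtain ⟨μ, m1, m2, m3⟩ := σ.perp (pre b' k)
  rcases Bool.eq_false_or_eq_true (b k) with e1 | e1
  · have e2 : b' k = false := by
      rcases Bool.eq_false_or_eq_true (b' k) with e2 | e2
      · exact absurd (e1.trans e2.symm) hk
      · exact e2
    rw [e1] at h1
    rw [e2] at h2
    exact m3 ((h2 μ m1).symm.trans (h1 μ m2))
  · have e2 : b' k = true := by
      rcases Bool.eq_false_or_eq_true (b' k) with e2 | e2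
      · exact e2
      · exact absurd (e1.trans e2.symm) hk
    rw [e1] at h1
    rw [e2] at h2
    exact m3 ((h1 μ m1).symm.trans (h2 μ m2))

/-- The cone of a branch of a scheme in `R (om (n+1))` contains a point of `R (om (n+1))`: the sequence which on each
`μ < blen` has the common value of the nodes, `1` at `blen σ b` and `0` above; `blen_lt`, and `ω_{n+1}` is a limit ordinal. -/
theorem Cs_nonempty {n : ℕ} (σ : Scheme (om (n + 1))) (b : ℕ → Bool) : (Cs σ b ∩ R (om (n + 1))).Nonempty := by
  classical
  let f : Seq := fun μ => if h : ∃ k, μ < (σ.nd (pre b k)).len then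
    (σ.nd (pre b (Nat.find h))).fn μ else decide (μ = blen σ b)
  have hlen : ∀ k, (σ.nd (pre b k)).len ≤ blen σ b := by
    intro k
    by_contra hc
    rw [not_le] at hc
    exact lt_irrefl _ (Ordinal.lt_iSup_iff.2 ⟨k, hc⟩ : blen σ b < blen σ b)
  have h1 : f (blen σ b) = true := by
    have hn : ¬ ∃ k, blen σ b < (σ.nd (pre b k)).len := by
      rintro ⟨k, hk⟩
      exact absurd hk (not_lt.2 (hlen k))
    change (if h : ∃ k, blen σ b < (σ.nd (pre b k)).len then _ else _) = _
    rw [dif_neg hn]
    exact decide_eq_true rfl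
  refine ⟨f, fun k μ hμ => ?_, ⟨_, h1⟩, Order.succ (blen σ b), ?_, fun ν hν => ?_⟩
  · have hex : ∃ k, μ < (σ.nd (pre b k)).len := ⟨k, hμ⟩
    change (if h : ∃ k, μ < (σ.nd (pre b k)).len then _ else _) = _
    rw [dif_pos hex]
    have hs := Nat.find_spec hex
    rcases le_total k (Nat.find hex) with h | h
    · exact (pre_mono σ b h).2 μ hμ
    · exact ((pre_mono σ b h).2 μ hs).symm
  · exact (Cardinal.isSuccLimit_ord (Cardinal.aleph0_le_aleph _)).succ_lt (blen_lt σ b)
  · rw [Order.lt_succ_iff]
    change (if h : ∃ k, ν < (σ.nd (pre b k)).len then _ else _) = _ at hν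
    by_cases hex : ∃ k, ν < (σ.nd (pre b k)).len
    · obtain ⟨k, hk⟩ := hex
      exact hk.le.trans (hlen k)
    · rw [dif_neg hex] at hν
      exact (of_decide_eq_true hν).le

/-- If `x` lies in the cone of the branch `b` and the support of `x` is bounded by `β`, then `blen σ b ≤ β`: for each `k`
there is (`one`) an index `ν ≥ len_k` with `x ν = true`, so `len_k ≤ ν < β`. -/
theorem blen_le {θ : Ordinal.{0}} (σ : Scheme θ) (b : ℕ → Bool) {x : Seq} (hx : x ∈ Cs σ b) {β : Ordinal.{0}}
    (hβ : ∀ ν, x ν = true → ν < β) : blen σ b ≤ β := by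
  unfold blen
  refine Ordinal.iSup_le fun k => ?_
  obtain ⟨ν, h1, h2, h3⟩ := σ.one (pre b k) (b k)
  have h4 : x ν = true := by
    rw [← h3]
    exact hx (k + 1) ν h2
  exact h1.trans (hβ ν h4).le

end Pool.Agent.H.MP_353193_lc
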