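import Pool.Agent.H.MP_353193_lc.M2

/-!
# If the powers of the `aleph n` are equal, then `eta_omega` does not arrow `(3, eta_1)`
-/

set_option autoImplicit false

open Cardinal

namespace Pool.Agent.H.MP_353193_lc.CC

open Pool.Agent.H.MP_353193_lc

/-- If `2 ^ ℵ_n = 2 ^ ℵ_0` for all natural numbers `n`, then there is a triangle-free graph on `R_ω` such that every strictly
increasing map from `R_1` to `R_ω` has two adjacent values. -/
theorem cc_result (hc : ∀ n : ℕ, (2 : Cardinal.{0}) ^ Cardinal.aleph (n : Ordinal.{0}) = 2 ^ ℵ₀) :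
    ∃ G : SimpleGraph (Ordinal.{0} → Bool),
      (∀ a ∈ R omω, ∀ b ∈ R omω, ∀ c ∈ R omω, ¬ (G.Adj a b ∧ G.Adj b c ∧ G.Adj a c)) ∧
      ∀ φ : (Ordinal.{0} → Bool) → (Ordinal.{0} → Bool), (∀ f ∈ R (om 1), φ f ∈ R omω) →
        (∀ f ∈ R (om 1), ∀ g ∈ R (om 1), lexlt f g → lexlt (φ f) (φ g)) →
        ∃ f ∈ R (om 1), ∃ g ∈ R (om 1), G.Adj (φ f) (φ g) :=
  neg_eta_one hc

end Pool.Agent.H.MP_353193_lc.CC
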