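import Mathlib

/-!
# Definitions for MP_353193_lc (eta_omega and triangle-free graphs)
`Seq` = all 0-1 sequences on the ordinals, `lexlt` the lexicographic order, `R θ` the nonzero sequences with
support bounded below `θ`, `om n` the initial ordinal omega_n, cones, countable binary schemes of nodes.
-/

set_option autoImplicit false

open Cardinal Ordinal Set

namespace Pool.Agent.H.MP_353193_lc

/-- 0-1 sequences indexed by all ordinals. -/
abbrev Seq : Type 1 := Ordinal.{0} → Bool

/-- The lexicographic order. -/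
def lexlt (f g : Seq) : Prop :=
  ∃ ν : Ordinal.{0}, (∀ μ, μ < ν → f μ = g μ) ∧ f ν = false ∧ g ν = true

/-- The nonzero sequences whose support is bounded below `θ`. -/
def R (θ : Ordinal.{0}) : Set Seq :=
  {f | (∃ ν, f ν = true) ∧ ∃ β : Ordinal.{0}, β < θ ∧ ∀ ν, f ν = true → ν < β}

/-- The initial ordinal `ω_n`. -/
noncomputable def om (n : ℕ) : Ordinal.{0} := (Cardinal.aleph (n : Ordinal.{0})).ord

/-- The initial ordinal `ω_ω`. -/
noncomputable def omω : Ordinal.{0} := (Cardinal.aleph Ordinal.omega0.{0}).ord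

/-- The level of a sequence: the least `n` with `x ∈ R (om (n+1))` (levels 0 and 1 of the paper are merged). -/
noncomputable def lev (x : Seq) : ℕ := sInf {n : ℕ | x ∈ R (om (n + 1))}

/-- A node: a 0-1 sequence of length `len` (extended by zeros). -/
structure Nd : Type 1 where
  len : Ordinal.{0}
  fn : Seq
  zero : ∀ ν, len ≤ ν → fn ν = false

/-- The cone of a node: all sequences that extend it. -/
def cone (u : Nd) : Set Seq := {x | ∀ μ, μ < u.len → x μ = u.fn μ}

/-- The node of length `δ` below the sequence `x`. -/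
noncomputable def rest (x : Seq) (δ : Ordinal.{0}) : Nd where
  len := δ
  fn := fun ν => if ν < δ then x ν else false
  zero := fun ν h => by simp [not_lt.mpr h]

/-- The initial segments of a 0-1 sequence of length omega, newest digit first. -/
def pre (b : ℕ → Bool) : ℕ → List Bool
  | 0 => []
  | k + 1 => b k :: pre b k

/-- A countable binary scheme of nodes of length `< θ`; every step adds a digit 1. -/
structure Scheme (θ : Ordinal.{0}) : Type 1 where
  nd : List Bool → Nd
  lt : ∀ s, (nd s).len < θ
  ext : ∀ s i, (nd s).len ≤ (nd (i :: s)).len ∧ ∀ μ, μ < (nd s).len → (nd (i :: s)).fn μ = (nd s).fn μ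
  perp : ∀ s, ∃ μ, μ < (nd (false :: s)).len ∧ μ < (nd (true :: s)).len ∧
    (nd (false :: s)).fn μ ≠ (nd (true :: s)).fn μ
  one : ∀ s i, ∃ ν, (nd s).len ≤ ν ∧ ν < (nd (i :: s)).len ∧ (nd (i :: s)).fn ν = true

/-- The cone of a branch of a scheme. -/
def Cs {θ : Ordinal.{0}} (σ : Scheme θ) (b : ℕ → Bool) : Set Seq :=
  {x | ∀ k, x ∈ cone (σ.nd (pre b k))}

/-- The length of a branch of a scheme. -/
noncomputable def blen {θ : Ordinal.{0}} (σ : Scheme θ) (b : ℕ → Bool) : Ordinal.{0} :=
  ⨆ k, (σ.nd (pre b k)).len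

end Pool.Agent.H.MP_353193_lc
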