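import Pool.Agent.H.MP_353193_lc.Defs

/-!
# Definitions for the embedding part
-/

set_option autoImplicit false

open Cardinal Ordinal Set

namespace Pool.Agent.H.MP_353193_lc

/-- `w` extends `v`. -/
def Ext (v w : Nd) : Prop := v.len ≤ w.len ∧ ∀ μ, μ < v.len → w.fn μ = v.fn μ

/-- The node `u` followed by the digit `i`. -/
noncomputable def snoc (u : Nd) (i : Bool) : Nd where
  len := u.len + 1
  fn := fun ν => if ν = u.len then i else u.fn ν
  zero := fun ν h => by
    have h1 : u.len < ν := lt_of_lt_of_le (by simpa using lt_add_one u.len) h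
    simp [h1.ne', u.zero ν h1.le]

theorem Ext.refl (v : Nd) : Ext v v := ⟨le_rfl, fun _ _ => rfl⟩

theorem Ext.trans {u v w : Nd} (h : Ext u v) (h' : Ext v w) : Ext u w :=
  ⟨h.1.trans h'.1, fun μ hμ => (h'.2 μ (lt_of_lt_of_le hμ h.1)).trans (h.2 μ hμ)⟩

/-- The points of `R (om 1)` above the node `v` with a digit 1 at or after `v.len`. -/
def Zset (v : Nd) : Set Seq := {f | f ∈ R (om 1) ∧ f ∈ cone v ∧ ∃ ν, v.len ≤ ν ∧ f ν = true}

/-- A state of the construction: source node `v` above `v0` (length `< om 1`), target node `t` (length `< om (n+1)`), and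
`φ` maps `R (om 1) ∩ cone v` into `cone t`. -/
def Good (φ : Seq → Seq) (n : ℕ) (v0 : Nd) (p : Nd × Nd) : Prop :=
  p.1.len < om 1 ∧ Ext v0 p.1 ∧ p.2.len < om (n + 1) ∧ ∀ f ∈ R (om 1), f ∈ cone p.1 → φ f ∈ cone p.2

end Pool.Agent.H.MP_353193_lc
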