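import Pool.Agent.H.MP_353193_lc.Defs

/-!
# Definitions for the abstract recursion (`T` = well-ordered tasks, `C t b` candidate cones, `Y t` targets, `ρ` rank; `acc t = some b`: accepted)
-/

set_option autoImplicit false

open Cardinal Ordinal Set

universe u

namespace Pool.Agent.H.MP_353193_lc

variable {X I T B : Type u} [LinearOrder T] [WellFoundedLT T]

/-- The directed edge `x → y` put at task `t` with branch `b`. -/
def Arr (C : T → B → Set X) (Y : T → I → X) (ρ : X → I) (t : T) (b : B) (x y : X) : Prop :=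
  x ∈ C t b ∧ y = Y t (ρ x)

/-- Adjacency produced by the acceptance function `acc`. -/
def AdjA (C : T → B → Set X) (Y : T → I → X) (ρ : X → I) (acc : T → Option B) (x y : X) : Prop :=
  ∃ t b, acc t = some b ∧ (Arr C Y ρ t b x y ∨ Arr C Y ρ t b y x)

/-- Adjacency produced by the tasks before `t0`. -/
def AdjLt (C : T → B → Set X) (Y : T → I → X) (ρ : X → I) (acc : T → Option B) (t0 : T) (x y : X) : Prop :=
  ∃ t, t < t0 ∧ ∃ b, acc t = some b ∧ (Arr C Y ρ t b x y ∨ Arr C Y ρ t b y x)

/-- The branch `b` may be accepted at task `t`. -/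
def OK (C : T → B → Set X) (Y : T → I → X) (ρ : X → I) (acc : T → Option B) (t : T) (b : B) : Prop :=
  (∀ t', t' < t → ∀ b', acc t' = some b' → ¬ C t' b' ⊆ C t b) ∧
  (∀ t', t' ≤ t → ∀ i, Y t' i ∉ C t b) ∧
  (∀ t', t' < t → ∀ b', acc t' = some b' → C t b ⊆ C t' b' → ∀ i, ¬ AdjLt C Y ρ acc t (Y t i) (Y t' i))

end Pool.Agent.H.MP_353193_lc
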