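import Pool.Agent.H.MP_353193_lc.Defs

/-!
# Candidate cones as sets of points
-/

set_option autoImplicit false

open Cardinal Ordinal Set

namespace Pool.Agent.H.MP_353193_lc

/-- The branch index type lifted to `Type 1`. -/
abbrev Br : Type 1 := ULift.{1} (ℕ → Bool)

/-- The candidate cones as sets of points of `R (om (n+1))`. -/
def CX (n : ℕ) (σ : Scheme (om (n + 1))) (b : Br) : Set (R (om (n + 1))) :=
  {x | (x : Seq) ∈ Cs σ b.down}

end Pool.Agent.H.MP_353193_lc
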