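import Pool.Agent.H.MP_353193_lc.DefsE
import Pool.Agent.H.MP_353193_lc.B1

/-!
# Limits of nodes, the dense level
-/

set_option autoImplicit false

open Cardinal Ordinal Set

namespace Pool.Agent.H.MP_353193_lc

/-- The cone of an extension is smaller. -/
theorem cone_anti {v w : Nd} (h : Ext v w) : cone w ⊆ cone v :=
  fun _ hx μ hμ => (hx μ (lt_of_lt_of_le hμ h.1)).trans (h.2 μ hμ)

private theorem E1_chain (v : ℕ → Nd) (hv : ∀ k, Ext (v k) (v (k + 1))) {i j : ℕ} (h : i ≤ j) :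
    Ext (v i) (v j) := by
  induction j, h using Nat.le_induction with
  | base => exact Ext.refl _
  | succ j _ ih => exact ih.trans (hv j)

private theorem E1_bdd (l : ℕ → Ordinal.{0}) : BddAbove (Set.range l) :=
  Ordinal.bddAbove_of_small

private theorem E1_sup (l : ℕ → Ordinal.{0}) (hl : ∀ k, l k < om 1) : ⨆ k, l k < om 1 := by
  refine Ordinal.iSup_lt_of_lt_cof ?_ hl
  have h1 : Cardinal.aleph ((1 : ℕ) : Ordinal.{0}) = Cardinal.aleph 1 := by simp
  unfold om
  rw [h1, Cardinal.isRegular_aleph_one.cof_ord, Cardinal.mk_nat]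
  exact Cardinal.aleph0_lt_aleph_one

/-- A countable increasing chain of nodes of length `< om 1` has an upper bound of length `< om 1` (length = supremum of the
lengths, countable cofinality argument as in `blen_lt`; value at `μ` = value of any node of the chain longer than `μ`). -/
theorem exists_limit (v : ℕ → Nd) (hl : ∀ k, (v k).len < om 1) (hv : ∀ k, Ext (v k) (v (k + 1))) :
    ∃ w : Nd, w.len < om 1 ∧ ∀ k, Ext (v k) w := by
  classical
  have hle : ∀ k, (v k).len ≤ ⨆ k, (v k).len := fun k => le_ciSup (E1_bdd fun k => (v k).len) k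
  refine ⟨⟨⨆ k, (v k).len,
    fun μ => if h : ∃ k, μ < (v k).len then (v (Nat.find h)).fn μ else false, ?_⟩, ?_, ?_⟩
  · intro ν hν
    have h : ¬ ∃ k, ν < (v k).len := by
      rintro ⟨k, hk⟩
      exact absurd (lt_of_lt_of_le hk (hle k)) (not_lt.2 hν)
    exact dif_neg h
  · exact E1_sup _ hl
  · intro k
    refine ⟨hle k, fun μ hμ => ?_⟩
    have h : ∃ k, μ < (v k).len := ⟨k, hμ⟩
    have h1 : Nat.find h ≤ k := Nat.find_min' h hμ
    have h2 := (E1_chain v hv h1).2 μ (Nat.find_spec h)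
    exact (dif_pos h).trans h2.symm

private theorem E1_succ {a : Ordinal.{0}} (h : a < om 1) : a + 1 < om 1 := by
  have h1 : Order.IsSuccLimit (om 1) := by
    unfold om
    exact Cardinal.isSuccLimit_ord (Cardinal.aleph0_le_aleph _)
  exact h1.add_one_lt h

/-- Each cone of a node of length `< om 1` contains a point of `R (om 1)` (put a single 1 at `w.len` after `w`). -/
theorem exists_mem_cone (w : Nd) (h : w.len < om 1) : ∃ f ∈ R (om 1), f ∈ cone w := by
  refine ⟨(snoc w true).fn, ⟨⟨w.len, if_pos rfl⟩, w.len + 1, E1_succ h, fun ν hν => ?_⟩,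
    fun μ hμ => if_neg hμ.ne⟩
  by_contra hc
  have h1 := (snoc w true).zero ν (not_lt.1 hc)
  rw [hν] at h1
  exact Bool.noConfusion h1

/-- DENSE LEVEL. Otherwise there are `v 0`, `v 1`, ... (`Ext (v n) (v (n+1))`, lengths `< om 1`) such that no
`f ∈ R (om 1) ∩ cone (v (n+1))` has `lev (φ f) = n`. Take `w` above all of them (`exists_limit`) and `f ∈ R (om 1) ∩ cone w`;
for `n = lev (φ f)` this is a contradiction. -/
theorem dense_level (φ : Seq → Seq) :
    ∃ (n : ℕ) (v : Nd), v.len < om 1 ∧ ∀ w : Nd, w.len < om 1 → Ext v w →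
      ∃ f ∈ R (om 1), f ∈ cone w ∧ lev (φ f) = n := by
  by_contra hcon
  have hc : ∀ (n : ℕ) (v : {v : Nd // v.len < om 1}), ∃ w : {v : Nd // v.len < om 1},
      Ext v.1 w.1 ∧ ∀ f ∈ R (om 1), f ∈ cone w.1 → lev (φ f) ≠ n := by
    intro n v
    by_contra h1
    apply hcon
    refine ⟨n, v.1, v.2, fun w hw hvw => ?_⟩
    by_contra h2
    apply h1
    refine ⟨⟨w, hw⟩, hvw, fun f hf hfw hn => h2 ⟨f, hf, hfw, hn⟩⟩
  choose g hg1 hg2 using hc
  have h0 : (0 : Ordinal.{0}) < om 1 := by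
    unfold om
    exact (Cardinal.isSuccLimit_ord (Cardinal.aleph0_le_aleph _)).bot_lt
  let sq : ℕ → {v : Nd // v.len < om 1} := fun k =>
    Nat.rec ⟨⟨0, fun _ => false, fun _ _ => rfl⟩, h0⟩ (fun n v => g n v) k
  have hs : ∀ k, sq (k + 1) = g k (sq k) := fun k => rfl
  obtain ⟨w, hw, hkw⟩ := exists_limit (fun k => (sq k).1) (fun k => (sq k).2)
    (fun k => by
      show Ext (sq k).1 (sq (k + 1)).1
      rw [hs]
      exact hg1 k (sq k))
  obtain ⟨f, hf, hfw⟩ := exists_mem_cone w hw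
  have h3 : f ∈ cone (sq (lev (φ f) + 1)).1 :=
    cone_anti (hkw (lev (φ f) + 1)) hfw
  rw [hs] at h3
  exact hg2 _ _ f hf h3 rfl

end Pool.Agent.H.MP_353193_lc
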