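import Pool.Agent.H.MP_353193_lc.DefsE
import Pool.Agent.H.MP_353193_lc.B1
import Pool.Agent.H.MP_353193_lc.B2

/-!
# Points above a node
-/

set_option autoImplicit false

open Cardinal Ordinal Set

namespace Pool.Agent.H.MP_353193_lc

private theorem E2_succ {β : Ordinal.{0}} {n : ℕ} (h : β < om n) : β + 1 < om n := by
  have h1 : Order.IsSuccLimit (om n) := isSuccLimit_ord (aleph0_le_aleph _)
  have h2 := h1.succ_lt h
  rwa [Order.succ_eq_add_one] at h2

/-- `φ` is injective on `R (om 1)` and reflects the order: if `φ f < φ g` then `f < g` (`lexlt_total`, `lexlt_asymm`). -/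
theorem lexlt_reflect (φ : Seq → Seq)
    (hlt : ∀ f ∈ R (om 1), ∀ g ∈ R (om 1), lexlt f g → lexlt (φ f) (φ g)) {f g : Seq} (hf : f ∈ R (om 1))
    (hg : g ∈ R (om 1)) (h : lexlt (φ f) (φ g)) : lexlt f g := by
  by_cases hfg : f = g
  · subst hfg
    exact absurd h (lexlt_asymm h)
  · rcases lexlt_total hfg with h1 | h1
    · exact h1
    · exact absurd (hlt g hg f hf h1) (lexlt_asymm h)

/-- `Zset v` has no least element: if `f ν = true`, `v.len ≤ ν`, take `f' = f` below `ν`, `0` at `ν`, `1` at `ν + 1`, `0` above. -/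
theorem Zset_no_min (v : Nd) {f : Seq} (hf : f ∈ Zset v) : ∃ f' ∈ Zset v, lexlt f' f := by
  classical
  obtain ⟨⟨-, β, hβ, hsup⟩, hcone, ν, hν, hfν⟩ := hf
  have hνo : ν < om 1 := (hsup ν hfν).trans hβ
  have h1 : ν < ν + 1 := lt_add_one ν
  refine ⟨fun μ => if μ < ν then f μ else if μ = ν + 1 then true else false, ?_, ν, ?_, ?_, hfν⟩
  · refine ⟨⟨⟨ν + 1, ?_⟩, ν + 1 + 1, E2_succ (E2_succ hνo), ?_⟩, ?_, ν + 1, hν.trans h1.le, ?_⟩
    · show (if ν + 1 < ν then f (ν + 1) else if ν + 1 = ν + 1 then true else false) = true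
      rw [if_neg (not_lt.2 h1.le), if_pos rfl]
    · intro μ hμ
      change (if μ < ν then f μ else if μ = ν + 1 then true else false) = true at hμ
      by_cases h2 : μ < ν
      · exact h2.trans (h1.trans (lt_add_one _))
      · rw [if_neg h2] at hμ
        by_cases h3 : μ = ν + 1
        · rw [h3]
          exact lt_add_one _
        · rw [if_neg h3] at hμ
          exact Bool.noConfusion hμ
    · intro μ hμ
      show (if μ < ν then f μ else if μ = ν + 1 then true else false) = v.fn μ
      rw [if_pos (lt_of_lt_of_le hμ hν)]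
      exact hcone μ hμ
    · show (if ν + 1 < ν then f (ν + 1) else if ν + 1 = ν + 1 then true else false) = true
      rw [if_neg (not_lt.2 h1.le), if_pos rfl]
  · intro μ hμ
    show (if μ < ν then f μ else if μ = ν + 1 then true else false) = f μ
    rw [if_pos hμ]
  · show (if ν < ν then f ν else if ν = ν + 1 then true else false) = false
    rw [if_neg (lt_irrefl _), if_neg h1.ne]

/-- `Zset v` has no greatest element: put an additional digit 1 at a bound `β ≥ v.len`, `β < om 1`, of the support. -/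
theorem Zset_no_max (v : Nd) {f : Seq} (hf : f ∈ Zset v) : ∃ f' ∈ Zset v, lexlt f f' := by
  classical
  obtain ⟨⟨-, β, hβ, hsup⟩, hcone, ν, hν, hfν⟩ := hf
  have hvβ : v.len < β := lt_of_le_of_lt hν (hsup ν hfν)
  have hfβ : f β = false := by
    cases h1 : f β with
    | false => rfl
    | true => exact absurd (hsup β h1) (lt_irrefl _)
  refine ⟨fun μ => if μ = β then true else f μ, ?_, β, ?_, hfβ, ?_⟩
  · refine ⟨⟨⟨β, ?_⟩, β + 1, E2_succ hβ, ?_⟩, ?_, β, hvβ.le, ?_⟩
    · show (if β = β then true else f β) = true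
      rw [if_pos rfl]
    · intro μ hμ
      change (if μ = β then true else f μ) = true at hμ
      by_cases h2 : μ = β
      · rw [h2]
        exact lt_add_one _
      · rw [if_neg h2] at hμ
        exact (hsup μ hμ).trans (lt_add_one _)
    · intro μ hμ
      show (if μ = β then true else f μ) = v.fn μ
      rw [if_neg (hμ.trans hvβ).ne]
      exact hcone μ hμ
    · show (if β = β then true else f β) = true
      rw [if_pos rfl]
  · intro μ hμ
    show f μ = (if μ = β then true else f μ)
    rw [if_neg hμ.ne]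
  · show (if β = β then true else f β) = true
    rw [if_pos rfl]

/-- The cone of a long initial segment of `f ∈ Zset v` lies between `f` and any given larger `f'`: if `f, f' ∈ Zset v`, `f < f'`, there
is a node `a` with `a.len < om 1`, `Ext v a`, such that every `g ∈ R (om 1) ∩ cone a` is equal to `f` or satisfies `f < g`, and `g < f'`.
(`a = rest f ξ` with `ξ < om 1` above the support of `f`, above the index where `f, f'` first differ, and `≥ v.len`.) -/
theorem exists_between (v : Nd) (hv : v.len < om 1) {f f' : Seq} (hf : f ∈ Zset v) (hf' : f' ∈ Zset v) (h : lexlt f f') :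
    ∃ a : Nd, a.len < om 1 ∧ Ext v a ∧ ∀ g ∈ R (om 1), g ∈ cone a → (g = f ∨ lexlt f g) ∧ lexlt g f' := by
  classical
  obtain ⟨⟨-, β, hβ, hsup⟩, hcone, -⟩ := hf
  obtain ⟨⟨-, β', hβ', hsup'⟩, -, -⟩ := hf'
  obtain ⟨κ, hκ, hfκ, hfκ'⟩ := h
  have hκo : κ < om 1 := (hsup' κ hfκ').trans hβ'
  let ξ : Ordinal.{0} := max (max β (κ + 1)) v.len
  have hξβ : β ≤ ξ := (le_max_left _ _).trans (le_max_left _ _)
  have hξκ : κ < ξ := lt_of_lt_of_le (lt_add_one κ) ((le_max_right _ _).trans (le_max_left _ _))
  have hξv : v.len ≤ ξ := le_max_right _ _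
  have hξo : ξ < om 1 := max_lt (max_lt hβ (E2_succ hκo)) hv
  refine ⟨rest f ξ, hξo, ⟨hξv, ?_⟩, ?_⟩
  · intro μ hμ
    show (if μ < ξ then f μ else false) = v.fn μ
    rw [if_pos (lt_of_lt_of_le hμ hξv)]
    exact hcone μ hμ
  · intro g hg hga
    have hgf : ∀ μ, μ < ξ → g μ = f μ := by
      intro μ hμ
      have h1 : g μ = (if μ < ξ then f μ else false) := hga μ hμ
      rwa [if_pos hμ] at h1
    constructor
    · by_cases hgf' : g = f
      · exact Or.inl hgf'
      · right
        rcases lexlt_total hgf' with h1 | h1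
        · exfalso
          obtain ⟨μ, -, h2, h3⟩ := h1
          have h4 := hgf μ (lt_of_lt_of_le (hsup μ h3) hξβ)
          rw [h2, h3] at h4
          exact Bool.noConfusion h4
        · exact h1
    · refine ⟨κ, fun μ hμ => (hgf μ (hμ.trans hξκ)).trans (hκ μ hμ), (hgf κ hξκ).trans hfκ, hfκ'⟩

end Pool.Agent.H.MP_353193_lc
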