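import Pool.Agent.H.MP_353193_lc.E2

/-!
# The meet
-/

set_option autoImplicit false

open Cardinal Ordinal Set

namespace Pool.Agent.H.MP_353193_lc

private theorem E3_succ_lt {β : Ordinal.{0}} (h : β < om 1) : β + 1 < om 1 := by
  have h1 : Order.IsSuccLimit (om 1) :=
    Cardinal.isSuccLimit_ord (Cardinal.aleph0_le_aleph _)
  rw [← Order.succ_eq_add_one]
  exact h1.succ_lt h

private theorem E3_ext (v : Nd) (i : Bool) : Ext v (snoc v i) := by
  refine ⟨?_, fun μ hμ => ?_⟩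
  · change v.len ≤ v.len + 1
    exact le_self_add
  · change (if μ = v.len then i else v.fn μ) = v.fn μ
    rw [if_neg hμ.ne]

private theorem E3_cone {v w : Nd} (h : Ext v w) {f : Seq} (hf : f ∈ cone w) : f ∈ cone v :=
  fun μ hμ => (hf μ (lt_of_lt_of_le hμ h.1)).trans (h.2 μ hμ)

private theorem E3_at (v : Nd) (i : Bool) {f : Seq} (hf : f ∈ cone (snoc v i)) : f v.len = i := by
  have h1 : v.len < (snoc v i).len := by
    change v.len < v.len + 1
    rw [← Order.succ_eq_add_one]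
    exact Order.lt_succ _
  have h2 : (snoc v i).fn v.len = i := by
    change (if v.len = v.len then i else v.fn v.len) = i
    rw [if_pos rfl]
  exact (hf _ h1).trans h2

/-- THE SPLIT. There is a node `u` with `u.len < om (n+1)` such that all `φ f`, `f ∈ Zset v`, extend `u`, and both digits occur at
`u.len`. Proof: let `P` be the set of the `ν` at which the `φ f`, `f ∈ Zset v`, do not all agree. By density (nodes
`snoc (snoc v true) false`, `snoc (snoc v true) true` above `v0`) there are two different `f, g ∈ Zset v` with `lev (φ f) = lev (φ g) = n`,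
so `φ f ≠ φ g` (`hlt`, `lexlt_total`) and both lie in `R (om (n+1))` (`mem_R_lev`): they differ at some `ν < om (n+1)` (their supports are
below `om (n+1)`). So `P` has a least element `ν0 < om (n+1)`; `u = rest (φ f) ν0`. -/
theorem exists_meet (φ : Seq → Seq) (hR : ∀ f ∈ R (om 1), φ f ∈ R omω)
    (hlt : ∀ f ∈ R (om 1), ∀ g ∈ R (om 1), lexlt f g → lexlt (φ f) (φ g)) (n : ℕ) (v0 : Nd)
    (hd : ∀ w : Nd, w.len < om 1 → Ext v0 w → ∃ f ∈ R (om 1), f ∈ cone w ∧ lev (φ f) = n)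
    (v : Nd) (hv : v.len < om 1) (hv0 : Ext v0 v) :
    ∃ u : Nd, u.len < om (n + 1) ∧ (∀ f ∈ Zset v, φ f ∈ cone u) ∧ (∃ f ∈ Zset v, φ f u.len = false) ∧
      (∃ f ∈ Zset v, φ f u.len = true) := by
  classical
  -- a point above `v` with the digits `1, i`
  have key : ∀ i : Bool, ∃ f ∈ Zset v, lev (φ f) = n ∧ f (v.len + 1) = i := by
    intro i
    have hl : (snoc (snoc v true) i).len < om 1 := E3_succ_lt (E3_succ_lt hv)
    obtain ⟨f, hf, hfc, hfl⟩ := hd (snoc (snoc v true) i) hl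
      ((hv0.trans (E3_ext v true)).trans (E3_ext _ i))
    have h1 : f ∈ cone (snoc v true) := E3_cone (E3_ext _ i) hfc
    refine ⟨f, ⟨hf, E3_cone (E3_ext v true) h1, v.len, le_rfl, E3_at v true h1⟩, hfl, ?_⟩
    exact E3_at (snoc v true) i hfc
  obtain ⟨f, hf, hfl, hf1⟩ := key false
  obtain ⟨g, hg, hgl, hg1⟩ := key true
  have hne : f ≠ g := by
    intro h
    rw [h, hg1] at hf1
    exact absurd hf1 (by decide)
  have hsm : ∀ h ∈ Zset v, lev (φ h) = n → ∀ ν, φ h ν = true → ν < om (n + 1) := by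
    intro h hh hhl ν hν
    have h1 := mem_R_lev (hR h hh.1)
    rw [hhl] at h1
    obtain ⟨-, β, hβ, h2⟩ := h1
    exact (h2 ν hν).trans hβ
  let P : Set Ordinal.{0} := {ν | ∃ f ∈ Zset v, ∃ g ∈ Zset v, φ f ν = false ∧ φ g ν = true}
  have hP : ∃ ν ∈ P, ν < om (n + 1) := by
    rcases lexlt_total hne with h | h
    · obtain ⟨ν, -, h2, h3⟩ := hlt f hf.1 g hg.1 h
      exact ⟨ν, ⟨f, hf, g, hg, h2, h3⟩, hsm g hg hgl ν h3⟩
    · obtain ⟨ν, -, h2, h3⟩ := hlt g hg.1 f hf.1 h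
      exact ⟨ν, ⟨g, hg, f, hf, h2, h3⟩, hsm f hf hfl ν h3⟩
  obtain ⟨ν, hνP, hν⟩ := hP
  have hmem : sInf P ∈ P := csInf_mem ⟨ν, hνP⟩
  have hle : sInf P ≤ ν := csInf_le' hνP
  obtain ⟨f₁, hf₁, g₁, hg₁, e1, e2⟩ := hmem
  refine ⟨rest (φ f₁) (sInf P), lt_of_le_of_lt hle hν, ?_, ⟨f₁, hf₁, e1⟩, ⟨g₁, hg₁, e2⟩⟩
  intro h hh μ hμ
  have hμ' : μ < sInf P := hμ
  change φ h μ = if μ < sInf P then φ f₁ μ else false
  rw [if_pos hμ']
  have hnot : μ ∉ P := notMem_of_lt_csInf' hμ'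
  by_contra hcon
  apply hnot
  cases h1 : φ h μ with
  | false =>
    cases h2 : φ f₁ μ with
    | false => exact absurd (h1.trans h2.symm) hcon
    | true => exact ⟨h, hh, f₁, hf₁, h1, h2⟩
  | true =>
    cases h2 : φ f₁ μ with
    | false => exact ⟨f₁, hf₁, h, hh, h2, h1⟩
    | true => exact absurd (h1.trans h2.symm) hcon

end Pool.Agent.H.MP_353193_lc
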