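import Pool.Agent.H.MP_353193_lc.E3

/-!
# The split step
-/

set_option autoImplicit false

open Cardinal Ordinal Set

namespace Pool.Agent.H.MP_353193_lc

/-- SPLIT STEP. With `u` of `exists_meet`: pick `f1 ∈ Zset v` with digit `false` at `u.len`, `f0 < f1` in `Zset v` (`Zset_no_min`); `f0` has digit
`false` as well (a point with digit `true` is larger than `f1`: `lexlt_reflect`). The node `a` of `exists_between` for `f0 < f1`:
`φ f0 ≤ φ g < φ f1` for `g ∈ R (om 1) ∩ cone a`, and `φ f0, φ f1 ∈ cone (snoc u false)`, so `φ g ∈ cone (snoc u false)` by `cone_convex`.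
Similarly pick `g1 ∈ Zset v` with digit `true`, `g2 > g1` in `Zset v` (`Zset_no_max`; digit `true` again), and `b` for `g1 < g2`. -/
theorem split_step (φ : Seq → Seq) (hR : ∀ f ∈ R (om 1), φ f ∈ R omω)
    (hlt : ∀ f ∈ R (om 1), ∀ g ∈ R (om 1), lexlt f g → lexlt (φ f) (φ g)) (n : ℕ) (v0 : Nd)
    (hd : ∀ w : Nd, w.len < om 1 → Ext v0 w → ∃ f ∈ R (om 1), f ∈ cone w ∧ lev (φ f) = n)
    (v : Nd) (hv : v.len < om 1) (hv0 : Ext v0 v) :
    ∃ a b u : Nd, a.len < om 1 ∧ b.len < om 1 ∧ Ext v a ∧ Ext v b ∧ u.len < om (n + 1) ∧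
      (∀ f ∈ R (om 1), f ∈ cone a → φ f ∈ cone (snoc u false)) ∧
      (∀ f ∈ R (om 1), f ∈ cone b → φ f ∈ cone (snoc u true)) := by
  obtain ⟨u, hul, hu, ⟨f1, hf1, hf1'⟩, ⟨g1, hg1, hg1'⟩⟩ := exists_meet φ hR hlt n v0 hd v hv hv0
  have hdig : ∀ f ∈ Zset v, ∀ g ∈ Zset v, φ f u.len = false → φ g u.len = true → lexlt f g := by
    intro f hf g hg h h'
    refine lexlt_reflect φ hlt hf.1 hg.1 ⟨u.len, fun μ hμ => ?_, h, h'⟩
    rw [hu f hf μ hμ, hu g hg μ hμ]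
  have hsn : ∀ (f : Seq) (i : Bool), f ∈ Zset v → φ f u.len = i → φ f ∈ cone (snoc u i) := by
    intro f i hf h μ hμ
    have hμ' : μ ≤ u.len := Order.lt_add_one_iff.1 hμ
    change φ f μ = if μ = u.len then i else u.fn μ
    split_ifs with h2
    · rw [h2, h]
    · exact hu f hf μ (lt_of_le_of_ne hμ' h2)
  obtain ⟨f0, hf0, hf01⟩ := Zset_no_min v hf1
  obtain ⟨g2, hg2, hg12⟩ := Zset_no_max v hg1
  have hf0' : φ f0 u.len = false := by
    by_contra h
    rw [Bool.not_eq_false] at h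
    exact lexlt_asymm hf01 (hdig f1 hf1 f0 hf0 hf1' h)
  have hg2' : φ g2 u.len = true := by
    by_contra h
    rw [Bool.not_eq_true] at h
    exact lexlt_asymm hg12 (hdig g2 hg2 g1 hg1 h hg1')
  obtain ⟨a, ha, hva, ha'⟩ := exists_between v hv hf0 hf1 hf01
  obtain ⟨b, hb, hvb, hb'⟩ := exists_between v hv hg1 hg2 hg12
  refine ⟨a, b, u, ha, hb, hva, hvb, hul, ?_, ?_⟩
  · intro f hf hfa
    obtain ⟨h1, h2⟩ := ha' f hf hfa
    rcases h1 with rfl | h1
    · exact hsn f false hf0 hf0'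
    · exact cone_convex (hsn f0 false hf0 hf0') (hsn f1 false hf1 hf1')
        (hlt f0 hf0.1 f hf h1) (hlt f hf f1 hf1.1 h2)
  · intro f hf hfb
    obtain ⟨h1, h2⟩ := hb' f hf hfb
    rcases h1 with rfl | h1
    · exact hsn f true hg1 hg1'
    · exact cone_convex (hsn g1 true hg1 hg1') (hsn g2 true hg2 hg2')
        (hlt g1 hg1.1 f hf h1) (hlt f hf g2 hg2.1 h2)

end Pool.Agent.H.MP_353193_lc
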