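import Pool.Agent.H.MP_353193_lc.E1
import Pool.Agent.H.MP_353193_lc.E4

/-!
# The double step
-/

set_option autoImplicit false

open Cardinal Ordinal Set

namespace Pool.Agent.H.MP_353193_lc

/-- the target node of a split extends the target node -/
theorem e5_target (φ : Seq → Seq) (n : ℕ) (v0 : Nd) (p : Nd × Nd) (hp : Good φ n v0 p) (a b u : Nd)
    (ha : a.len < om 1) (hb : b.len < om 1) (hva : Ext p.1 a) (hvb : Ext p.1 b)
    (h0 : ∀ f ∈ R (om 1), f ∈ cone a → φ f ∈ cone (snoc u false))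
    (h1 : ∀ f ∈ R (om 1), f ∈ cone b → φ f ∈ cone (snoc u true)) : Ext p.2 u := by
  obtain ⟨f, hf, hfa⟩ := exists_mem_cone a ha
  obtain ⟨g, hg, hgb⟩ := exists_mem_cone b hb
  have hf2 := hp.2.2.2 f hf (cone_anti hva hfa)
  have hg2 := hp.2.2.2 g hg (cone_anti hvb hgb)
  have hf3 := h0 f hf hfa
  have hg3 := h1 g hg hgb
  have hlt : u.len < (snoc u false).len := lt_add_one u.len
  have e1 : φ f u.len = false := by
    rw [hf3 u.len hlt]
    exact if_pos rfl
  have e2 : φ g u.len = true := by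
    rw [hg3 u.len hlt]
    exact if_pos rfl
  have hlen : p.2.len ≤ u.len := by
    by_contra hcon
    push Not at hcon
    have e3 := hf2 u.len hcon
    have e4 := hg2 u.len hcon
    rw [e1] at e3
    rw [e2] at e4
    rw [← e3] at e4
    exact absurd e4 (by decide)
  refine ⟨hlen, fun μ hμ => ?_⟩
  have e5 := hf2 μ hμ
  have e6 := hf3 μ ((lt_of_lt_of_le hμ hlen).trans hlt)
  have e7 : (snoc u false).fn μ = u.fn μ := if_neg (lt_of_lt_of_le hμ hlen).ne
  rw [← e7, ← e6, e5]

theorem e5_snoc (u : Nd) (i : Bool) : Ext u (snoc u i) := by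
  refine ⟨le_of_lt (lt_add_one u.len), fun μ hμ => ?_⟩
  exact if_neg hμ.ne

theorem e5_snoc_len {n : ℕ} {u : Nd} (h : u.len < om (n + 1)) (i : Bool) :
    (snoc u i).len < om (n + 1) := by
  have h1 : Order.IsSuccLimit (om (n + 1)) := Cardinal.isSuccLimit_ord (Cardinal.aleph0_le_aleph _)
  have h2 := h1.succ_lt h
  rwa [← Order.succ_eq_add_one] 

/-- DOUBLE STEP. First `split_step` at `p.1`, keep the `true` side `(b, snoc u true)`; then `split_step` at `b`:
`q false = (a', snoc u' false)`, `q true = (b', snoc u' true)`. The target node of an extension extends the target node: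
if `p` is good and `(a,b,u)` is a split at `p.1` then `Ext p.2 u`: take `f ∈ R (om 1) ∩ cone a`, `g ∈ R (om 1) ∩ cone b` (`exists_mem_cone`):
`φ f, φ g ∈ cone p.2` and they differ at `u.len`, so `p.2.len ≤ u.len`, and `p.2`, `u` agree below `p.2.len` with `φ f`.
So `Ext p.2 (snoc u true)` and `Ext (snoc u true) u'`; the digit 1 is at `ν = u.len`; the two new targets differ at `u'.len`. -/
theorem double_step (φ : Seq → Seq) (hR : ∀ f ∈ R (om 1), φ f ∈ R omω)
    (hlt : ∀ f ∈ R (om 1), ∀ g ∈ R (om 1), lexlt f g → lexlt (φ f) (φ g)) (n : ℕ) (v0 : Nd)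
    (hd : ∀ w : Nd, w.len < om 1 → Ext v0 w → ∃ f ∈ R (om 1), f ∈ cone w ∧ lev (φ f) = n)
    (p : Nd × Nd) (hp : Good φ n v0 p) :
    ∃ q : Bool → Nd × Nd, (∀ i, Good φ n v0 (q i) ∧ Ext p.1 (q i).1 ∧ Ext p.2 (q i).2 ∧
        ∃ ν, p.2.len ≤ ν ∧ ν < (q i).2.len ∧ (q i).2.fn ν = true) ∧
      ∃ μ, μ < (q false).2.len ∧ μ < (q true).2.len ∧ (q false).2.fn μ ≠ (q true).2.fn μ := by
  obtain ⟨a, b, u, ha, hb, hva, hvb, hu, h0, h1⟩ := split_step φ hR hlt n v0 hd p.1 hp.1 hp.2.1
  have hE : Ext p.2 u := e5_target φ n v0 p hp a b u ha hb hva hvb h0 h1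
  have hgb : Good φ n v0 (b, snoc u true) := ⟨hb, hp.2.1.trans hvb, e5_snoc_len hu true, h1⟩
  obtain ⟨a', b', u', ha', hb', hva', hvb', hu', h0', h1'⟩ :=
    split_step φ hR hlt n v0 hd b hb (hp.2.1.trans hvb)
  have hE' : Ext (snoc u true) u' :=
    e5_target φ n v0 (b, snoc u true) hgb a' b' u' ha' hb' hva' hvb' h0' h1'
  have hval : u'.fn u.len = true := by
    rw [hE'.2 u.len (lt_add_one u.len)]
    exact if_pos rfl
  have hul : u.len < u'.len := lt_of_lt_of_le (lt_add_one u.len) hE'.1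
  refine ⟨fun i => if i = true then (b', snoc u' true) else (a', snoc u' false), ?_, ?_⟩
  · intro i
    cases i with
    | true =>
      simp only [if_true]
      refine ⟨⟨hb', (hp.2.1.trans hvb).trans hvb', e5_snoc_len hu' true, h1'⟩, hvb.trans hvb',
        ((hE.trans (e5_snoc u true)).trans hE').trans (e5_snoc u' true), u.len, hE.1,
        hul.trans (lt_add_one u'.len), ?_⟩
      rw [(e5_snoc u' true).2 u.len hul, hval]
    | false =>
      simp only [Bool.false_eq_true, if_false]
      refine ⟨⟨ha', (hp.2.1.trans hvb).trans hva', e5_snoc_len hu' false, h0'⟩, hvb.trans hva',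
        ((hE.trans (e5_snoc u true)).trans hE').trans (e5_snoc u' false), u.len, hE.1,
        hul.trans (lt_add_one u'.len), ?_⟩
      rw [(e5_snoc u' false).2 u.len hul, hval]
  · refine ⟨u'.len, ?_, ?_, ?_⟩
    · simp only [Bool.false_eq_true, if_false]
      exact lt_add_one u'.len
    · simp only [if_true]
      exact lt_add_one u'.len
    · simp only [Bool.false_eq_true, if_false, if_true]
      have e1 : (snoc u' false).fn u'.len = false := if_pos rfl
      have e2 : (snoc u' true).fn u'.len = true := if_pos rfl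
      rw [e1, e2]
      decide

end Pool.Agent.H.MP_353193_lc
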