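import Pool.Agent.H.MP_353193_lc.E5

/-!
# An order embedding of `R (om 1)` into `R omω` has a scheme
-/

set_option autoImplicit false

open Cardinal Ordinal Set

namespace Pool.Agent.H.MP_353193_lc

/-- THE SCHEME. `dense_level` gives `n, v0`. Recursion on `List Bool` with `double_step`, starting at `(v0, ` root `)` (the node of
length 0), gives `st : List Bool → Nd × Nd`, all good; `σ.nd s = (st s).2`. For a branch `b` the source nodes `(st (pre b k)).1`
increase; let `w` be above all of them (`exists_limit`), and `f ∈ R (om 1) ∩ cone w` with `lev (φ f) = n` (`hd`). Then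
`φ f ∈ cone (σ.nd (pre b k))` for all `k`. -/
theorem exists_scheme (φ : Seq → Seq) (hR : ∀ f ∈ R (om 1), φ f ∈ R omω)
    (hlt : ∀ f ∈ R (om 1), ∀ g ∈ R (om 1), lexlt f g → lexlt (φ f) (φ g)) :
    ∃ (n : ℕ) (σ : Scheme (om (n + 1))), ∀ b : ℕ → Bool, ∃ f ∈ R (om 1), lev (φ f) = n ∧ φ f ∈ Cs σ b := by
  classical
  obtain ⟨n, v0, hv0, hd⟩ := dense_level φ
  let root : Nd := ⟨0, fun _ => false, fun _ _ => rfl⟩
  have h1 : om 1 ≤ om (n + 1) := by
    rcases Nat.eq_zero_or_pos n with h | h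
    · subst h
      exact le_rfl
    · exact (om_lt_om (by omega)).le
  have hroot : Good φ n v0 (v0, root) :=
    ⟨hv0, Ext.refl v0, lt_of_lt_of_le (lt_of_le_of_lt zero_le hv0) h1,
      fun f _ _ μ hμ => absurd hμ (not_lt.mpr zero_le)⟩
  have hstep : ∀ p : {p : Nd × Nd // Good φ n v0 p}, ∃ q : Bool → {p : Nd × Nd // Good φ n v0 p},
      (∀ i, Ext p.1.1 (q i).1.1 ∧ Ext p.1.2 (q i).1.2 ∧
        ∃ ν, p.1.2.len ≤ ν ∧ ν < (q i).1.2.len ∧ (q i).1.2.fn ν = true) ∧
      ∃ μ, μ < (q false).1.2.len ∧ μ < (q true).1.2.len ∧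
        (q false).1.2.fn μ ≠ (q true).1.2.fn μ := by
    intro p
    obtain ⟨q, hq, hμ⟩ := double_step φ hR hlt n v0 hd p.1 p.2
    exact ⟨fun i => ⟨q i, (hq i).1⟩, fun i => (hq i).2, hμ⟩
  choose q hq1 hq2 using hstep
  let st : List Bool → {p : Nd × Nd // Good φ n v0 p} :=
    List.foldr (fun i p => q p i) ⟨(v0, root), hroot⟩
  let σ : Scheme (om (n + 1)) :=
    { nd := fun s => (st s).1.2
      lt := fun s => (st s).2.2.2.1
      ext := fun s i => ⟨(hq1 (st s) i).2.1.1, (hq1 (st s) i).2.1.2⟩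
      perp := fun s => hq2 (st s)
      one := fun s i => (hq1 (st s) i).2.2 }
  refine ⟨n, σ, fun b => ?_⟩
  obtain ⟨w, hw, hwe⟩ := exists_limit (fun k => (st (pre b k)).1.1) (fun k => (st (pre b k)).2.1)
    (fun k => (hq1 (st (pre b k)) (b k)).1)
  obtain ⟨f, hf, hfw, hfl⟩ := hd w hw (hwe 0)
  exact ⟨f, hf, hfl, fun k => (st (pre b k)).2.2.2.2 f hf (cone_anti (hwe k) hfw)⟩

end Pool.Agent.H.MP_353193_lc
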