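import Pool.Agent.H.MP_353193_lc.B1

/-!
# Cardinalities in universe 1 (`hc` is the hypothesis of the theorem)
-/

set_option autoImplicit false

open Cardinal Ordinal Set

namespace Pool.Agent.H.MP_353193_lc

/-- The hypothesis lifted to universe 1: `2 ^ aleph n = continuum` (`Cardinal.lift` of both sides). -/
theorem two_pow_aleph (hc : ∀ n : ℕ, (2 : Cardinal.{0}) ^ Cardinal.aleph (n : Ordinal.{0}) = 2 ^ ℵ₀) (n : ℕ) :
    (2 : Cardinal.{1}) ^ Cardinal.aleph (n : Ordinal.{1}) = Cardinal.continuum := by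
  have h := congrArg Cardinal.lift.{1, 0} (hc n)
  rw [Cardinal.lift_power, Cardinal.lift_power, Cardinal.lift_aleph, Cardinal.lift_aleph0,
    Ordinal.lift_natCast, Cardinal.lift_ofNat] at h
  rw [h]
  exact Cardinal.two_power_aleph0

/-- `aleph n < continuum` (`Cardinal.cantor` and `two_pow_aleph`). -/
theorem aleph_lt_continuum (hc : ∀ n : ℕ, (2 : Cardinal.{0}) ^ Cardinal.aleph (n : Ordinal.{0}) = 2 ^ ℵ₀) (n : ℕ) :
    Cardinal.aleph (n : Ordinal.{1}) < (Cardinal.continuum : Cardinal.{1}) := by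
  rw [← two_pow_aleph hc n]
  exact Cardinal.cantor _

/-- `#{ordinals < ω_n} = aleph n` (`Cardinal.mk_Iio_ordinal`, `Cardinal.card_ord`, `Cardinal.lift_aleph`). -/
theorem mk_Iio_om (n : ℕ) : #(Set.Iio (om n)) = Cardinal.aleph (n : Ordinal.{1}) := by
  rw [Cardinal.mk_Iio_ordinal, om, Cardinal.card_ord, Cardinal.lift_aleph, Ordinal.lift_natCast]

/-- An initial segment of `ω_n` has fewer than `aleph n` elements. -/
theorem mk_Iio_lt {n : ℕ} {β : Ordinal.{0}} (h : β < om n) :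
    #(Set.Iio β) < Cardinal.aleph (n : Ordinal.{1}) := by
  have h1 : β.card < Cardinal.aleph (n : Ordinal.{0}) := Cardinal.lt_ord.1 h
  have h2 := Cardinal.lift_lt.{0, 1}.2 h1
  rw [Cardinal.lift_aleph, Ordinal.lift_natCast] at h2
  rw [Cardinal.mk_Iio_ordinal]
  exact h2

/-- The same for `Iic β` (`ω_n` is a limit ordinal). -/
theorem mk_Iic_lt {n : ℕ} {β : Ordinal.{0}} (h : β < om n) :
    #(Set.Iic β) < Cardinal.aleph (n : Ordinal.{1}) := by
  rw [← Order.Iio_succ]
  exact mk_Iio_lt ((Cardinal.isSuccLimit_ord (Cardinal.aleph0_le_aleph _)).succ_lt h)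

end Pool.Agent.H.MP_353193_lc
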