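import Pool.Agent.H.MP_353193_lc.K1

/-!
# Counting points, nodes, schemes, tasks
-/

set_option autoImplicit false

open Cardinal Ordinal Set

namespace Pool.Agent.H.MP_353193_lc

private theorem mk_fun_le (hc : ∀ n : ℕ, (2 : Cardinal.{0}) ^ Cardinal.aleph (n : Ordinal.{0}) = 2 ^ ℵ₀) (n : ℕ) :
    #(Set.Iio (om n) → Bool) = (Cardinal.continuum : Cardinal.{1}) := by
  rw [Cardinal.mk_arrow, Cardinal.mk_bool, mk_Iio_om, Cardinal.lift_ofNat, Cardinal.lift_id']
  exact two_pow_aleph hc n

private theorem aleph_le_continuum (hc : ∀ n : ℕ, (2 : Cardinal.{0}) ^ Cardinal.aleph (n : Ordinal.{0}) = 2 ^ ℵ₀) (n : ℕ) :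
    #(Set.Iio (om n)) ≤ (Cardinal.continuum : Cardinal.{1}) := by
  rw [mk_Iio_om]
  exact (aleph_lt_continuum hc n).le

/-- `R (om n)` has at most continuum many points: `x ↦ x` restricted to `Iio (om n)` is injective (the supports lie below
`om n`), and there are `2 ^ aleph n = continuum` functions. -/
theorem mk_R_le (hc : ∀ n : ℕ, (2 : Cardinal.{0}) ^ Cardinal.aleph (n : Ordinal.{0}) = 2 ^ ℵ₀) (n : ℕ) :
    #(R (om n)) ≤ (Cardinal.continuum : Cardinal.{1}) := by
  rw [← mk_fun_le hc n]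
  refine Cardinal.mk_le_of_injective (f := fun (x : R (om n)) (ν : Set.Iio (om n)) => x.1 ν.1) ?_
  rintro ⟨f, hf⟩ ⟨g, hg⟩ h
  apply Subtype.ext
  funext ν
  by_cases hν : ν < om n
  · exact congrFun h ⟨ν, hν⟩
  · obtain ⟨-, β, hβ, hfβ⟩ := hf
    obtain ⟨-, γ, hγ, hgγ⟩ := hg
    have h1 : f ν = false := by
      by_contra h2
      exact hν ((hfβ ν (by simpa using h2)).trans hβ)
    have h2 : g ν = false := by
      by_contra h3
      exact hν ((hgγ ν (by simpa using h3)).trans hγ)
    show f ν = g ν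
    rw [h1, h2]

/-- There are at most continuum many nodes of length `< om n`: a node is determined by its length (`aleph n` many) and its
restriction to `Iio (om n)`. -/
theorem mk_Nd_le (hc : ∀ n : ℕ, (2 : Cardinal.{0}) ^ Cardinal.aleph (n : Ordinal.{0}) = 2 ^ ℵ₀) (n : ℕ) :
    #{u : Nd // u.len < om n} ≤ (Cardinal.continuum : Cardinal.{1}) := by
  have h1 : #{u : Nd // u.len < om n} ≤ #(Set.Iio (om n) × (Set.Iio (om n) → Bool)) := by
    refine Cardinal.mk_le_of_injective (f := fun u => (⟨u.1.len, u.2⟩, fun ν => u.1.fn ν.1)) ?_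
    rintro ⟨⟨l, f, hf⟩, hu⟩ ⟨⟨l', g, hg⟩, hv⟩ h
    have h2 : l = l' := congrArg (fun p => (p.1 : Set.Iio (om n)).1) h
    have h3 : (fun ν : Set.Iio (om n) => f ν.1) = fun ν => g ν.1 := congrArg Prod.snd h
    subst h2
    have h4 : f = g := by
      funext ν
      by_cases hν : ν < om n
      · exact congrFun h3 ⟨ν, hν⟩
      · have h5 : l ≤ ν := (le_of_lt hu).trans (not_lt.1 hν)
        rw [hf ν h5, hg ν h5]
    subst h4
    rfl
  refine h1.trans ?_
  rw [Cardinal.mk_prod, Cardinal.lift_id, Cardinal.lift_id, mk_fun_le hc n]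
  calc #(Set.Iio (om n)) * Cardinal.continuum ≤ Cardinal.continuum * Cardinal.continuum :=
        mul_le_mul' (aleph_le_continuum hc n) le_rfl
    _ = Cardinal.continuum := Cardinal.continuum_mul_self

/-- There are at most continuum many schemes: a scheme is determined by the function `List Bool → {u : Nd // u.len < om n}`,
and `continuum ^ aleph0 = continuum`. -/
theorem mk_Scheme_le (hc : ∀ n : ℕ, (2 : Cardinal.{0}) ^ Cardinal.aleph (n : Ordinal.{0}) = 2 ^ ℵ₀) (n : ℕ) :
    #(Scheme (om n)) ≤ (Cardinal.continuum : Cardinal.{1}) := by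
  have h1 : #(Scheme (om n)) ≤ #(List Bool → {u : Nd // u.len < om n}) := by
    refine Cardinal.mk_le_of_injective (f := fun σ s => ⟨σ.nd s, σ.lt s⟩) ?_
    intro σ τ h
    have h2 : σ.nd = τ.nd := by
      funext s
      exact congrArg Subtype.val (congrFun h s)
    cases σ
    cases τ
    cases h2
    rfl
  refine h1.trans ?_
  rw [Cardinal.mk_arrow, Cardinal.lift_id']
  calc #{u : Nd // u.len < om n} ^ Cardinal.lift.{1} #(List Bool) ≤
        Cardinal.continuum ^ Cardinal.lift.{1} #(List Bool) :=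
        Cardinal.power_le_power_right (mk_Nd_le hc n)
    _ ≤ Cardinal.continuum ^ ℵ₀ := by
        refine Cardinal.power_le_power_left Cardinal.continuum_ne_zero ?_
        rw [Cardinal.lift_le_aleph0]
        exact Cardinal.mk_le_aleph0
    _ = Cardinal.continuum := Cardinal.continuum_power_aleph0

/-- The tasks: at most continuum many pairs (scheme, sequence of points indexed by `Iio (om n)`):
`continuum ^ aleph n = 2 ^ (aleph0 * aleph n) = 2 ^ aleph n = continuum`. -/
theorem mk_task_le (hc : ∀ n : ℕ, (2 : Cardinal.{0}) ^ Cardinal.aleph (n : Ordinal.{0}) = 2 ^ ℵ₀) (n : ℕ) :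
    #(Scheme (om n) × (Set.Iio (om n) → R (om n))) ≤ (Cardinal.continuum : Cardinal.{1}) := by
  have h1 : #(Set.Iio (om n) → R (om n)) ≤ (Cardinal.continuum : Cardinal.{1}) := by
    rw [Cardinal.mk_arrow, Cardinal.lift_id, Cardinal.lift_id, mk_Iio_om]
    calc #(R (om n)) ^ Cardinal.aleph (n : Ordinal.{1}) ≤
          Cardinal.continuum ^ Cardinal.aleph (n : Ordinal.{1}) :=
          Cardinal.power_le_power_right (mk_R_le hc n)
      _ = 2 ^ (ℵ₀ * Cardinal.aleph (n : Ordinal.{1})) := by
          rw [← Cardinal.two_power_aleph0, Cardinal.power_mul]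
      _ = 2 ^ Cardinal.aleph (n : Ordinal.{1}) := by
          rw [Cardinal.aleph0_mul_eq (Cardinal.aleph0_le_aleph _)]
      _ = Cardinal.continuum := two_pow_aleph hc n
  rw [Cardinal.mk_prod, Cardinal.lift_id, Cardinal.lift_id]
  calc #(Scheme (om n)) * #(Set.Iio (om n) → R (om n)) ≤
        Cardinal.continuum * Cardinal.continuum := mul_le_mul' (mk_Scheme_le hc n) h1
    _ = Cardinal.continuum := Cardinal.continuum_mul_self

end Pool.Agent.H.MP_353193_lc
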