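import Pool.Agent.H.MP_353193_lc.Defs

/-!
# Regularity of omega_{n+1}
-/

set_option autoImplicit false

open Cardinal Ordinal Set

namespace Pool.Agent.H.MP_353193_lc

/-- Regularity of `ω_{n+1}`: a set of fewer than `aleph (n+1)` ordinals below `ω_{n+1}` has an upper bound below
`ω_{n+1}` (`Cardinal.isRegular_aleph_succ`/`Ordinal.iSup_lt_ord` or `Ordinal.sup_lt_ord_lift`; the index set `A` is a set
of ordinals of universe 0 in `Type 1`, small because it is bounded). -/
theorem exists_bound {n : ℕ} (A : Set Ordinal.{0}) (hA : ∀ a ∈ A, a < om (n + 1))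
    (hc : #A < Cardinal.aleph ((n + 1 : ℕ) : Ordinal.{1})) : ∃ β, β < om (n + 1) ∧ ∀ a ∈ A, a ≤ β := by
  have hreg : (Cardinal.aleph ((n + 1 : ℕ) : Ordinal.{1})).IsRegular := by
    rw [Nat.cast_succ]
    exact Cardinal.isRegular_aleph_add_one _
  refine ⟨sSup A, Ordinal.sSup_lt_of_lt_cof ?_ hA, fun a ha => le_csSup ⟨_, fun b hb => (hA b hb).le⟩ ha⟩
  unfold om
  rw [Cardinal.lift_ord, Cardinal.lift_aleph, Ordinal.lift_natCast, hreg.cof_ord]
  exact hc

end Pool.Agent.H.MP_353193_lc
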