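import Pool.Agent.H.MP_353193_lc.R1
import Pool.Agent.H.MP_353193_lc.K1

/-!
# Few branch cones lie above a scheme
-/

set_option autoImplicit false

open Cardinal Ordinal Set

namespace Pool.Agent.H.MP_353193_lc

/-- The number of branch cones that properly contain some cone `CX n σ b` (`σ` fixed, `b` arbitrary) is `< aleph (n+1)`:
let `W = CX n σ' b'` and `CX n σ b ⊂ W`, `x ∈ CX n σ b`, `δ = blen σ' b'`. If `blen σ b ≤ δ` then `W ⊆ CX n σ b` by `mem_Cs_iff`,
so `δ < blen σ b` and `δ < (σ.nd (pre b k)).len` for some `k`. Hence `W` is the set of `y` that agree with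
`(σ.nd s).fn` below `δ`, where `s = pre b k`: `W` is determined by the pair `(s, δ)`, `s : List Bool`,
`δ < (σ.nd s).len < om (n+1)`. There are at most `aleph0 * aleph n = aleph n` such pairs
(`mk_Iio_lt` gives `#(Iio _) < aleph (n+1)`, i.e. `≤ aleph n` as `aleph (n+1) = succ (aleph n)`). -/
theorem mk_above_lt (n : ℕ) (σ : Scheme (om (n + 1))) :
    #{W : Set (R (om (n + 1))) // ∃ b, CX n σ b ⊂ W ∧ ∃ σ' b', W = CX n σ' b'} <
      Cardinal.aleph ((n + 1 : ℕ) : Ordinal.{1}) := by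
  have key : ∀ W : {W : Set (R (om (n + 1))) // ∃ b, CX n σ b ⊂ W ∧ ∃ σ' b', W = CX n σ' b'},
      ∃ p : (Σ s : List Bool, Set.Iio (σ.nd s).len),
        W.1 = {y : R (om (n + 1)) | ∀ μ, μ < (p.2 : Ordinal.{0}) → (y : Seq) μ = (σ.nd p.1).fn μ} := by
    rintro ⟨W, b, hb, σ', b', rfl⟩
    obtain ⟨x, hx⟩ := CX_nonempty n σ b
    have hx' : x ∈ CX n σ' b' := hb.1 hx
    have hx1 : (x : Seq) ∈ Cs σ b.down := hx
    have hx2 : (x : Seq) ∈ Cs σ' b'.down := hx'
    have hδ : blen σ' b'.down < blen σ b.down := by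
      by_contra h
      rw [not_lt] at h
      refine hb.2 fun y hy => ?_
      have hy1 : (y : Seq) ∈ Cs σ' b'.down := hy
      show (y : Seq) ∈ Cs σ b.down
      rw [mem_Cs_iff σ' b'.down hx2] at hy1
      rw [mem_Cs_iff σ b.down hx1]
      exact fun μ hμ => hy1 μ (lt_of_lt_of_le hμ h)
    obtain ⟨k, hk⟩ := Ordinal.lt_iSup_iff.1 hδ
    refine ⟨⟨pre b.down k, ⟨blen σ' b'.down, hk⟩⟩, ?_⟩
    ext y
    have h1 : ∀ μ, μ < blen σ' b'.down → (x : Seq) μ = (σ.nd (pre b.down k)).fn μ :=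
      fun μ hμ => hx1 k μ (lt_trans hμ hk)
    show (y : Seq) ∈ Cs σ' b'.down ↔
      ∀ μ, μ < blen σ' b'.down → (y : Seq) μ = (σ.nd (pre b.down k)).fn μ
    rw [mem_Cs_iff σ' b'.down hx2]
    exact ⟨fun h μ hμ => (h μ hμ).trans (h1 μ hμ), fun h μ hμ => (h μ hμ).trans (h1 μ hμ).symm⟩
  choose f hf using key
  have hinj : Function.Injective f := by
    intro W W' h
    apply Subtype.ext
    rw [hf W, hf W', h]
  have h0 : Cardinal.aleph ((n + 1 : ℕ) : Ordinal.{1}) =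
      Order.succ (Cardinal.aleph (n : Ordinal.{1})) := by
    rw [Cardinal.succ_aleph, Nat.cast_succ]
  have h1 : ∀ s : List Bool, #(Set.Iio (σ.nd s).len) ≤ Cardinal.aleph (n : Ordinal.{1}) := by
    intro s
    have h2 := mk_Iio_lt (σ.lt s)
    rw [h0] at h2
    exact Order.lt_succ_iff.1 h2
  refine lt_of_le_of_lt (Cardinal.mk_le_of_injective hinj) ?_
  rw [Cardinal.mk_sigma, h0]
  refine lt_of_le_of_lt ?_ (Order.lt_succ _)
  refine le_trans (Cardinal.sum_le_sum _ (fun _ => Cardinal.aleph (n : Ordinal.{1})) h1) ?_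
  rw [Cardinal.sum_const, Cardinal.mk_list_eq_aleph0, Cardinal.lift_aleph0, Cardinal.lift_uzero]
  exact le_of_eq (Cardinal.aleph0_mul_aleph _)

end Pool.Agent.H.MP_353193_lc
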