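import Pool.Agent.H.MP_353193_lc.R2
import Pool.Agent.H.MP_353193_lc.R3
import Pool.Agent.H.MP_353193_lc.K3

/-!
# The choice of the targets
-/

set_option autoImplicit false

open Cardinal Ordinal Set

namespace Pool.Agent.H.MP_353193_lc

/-- The choice of the targets. `E`, `Adj` as given by `abstract_graph` for `C = CX n`, `S` meets all cones of the scheme `σ`.
For every `i` there is `y ∈ S` with `i ≤ ρ y` that is not adjacent to `e.2.2 i` for any `e ∈ E` whose cone properly contains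
a cone of `σ`.
Proof. Let `A` be the set of those `e`; `#A < aleph (n+1)` because `e ↦ CX n e.1 e.2.1` is injective on `E` (`hinj`) and
`mk_above_lt`. Let `β < om (n+1)` bound `i` and all `ρ (e.2.2 i)`, `e ∈ A` (`exists_bound`), and `i' = β + 1`.
By `hρ σ i'` there are continuum many `b` with `i' ≤ ρ x` for all `x ∈ CX n σ b`; for each choose
`x_b ∈ S ∩ CX n σ b`; these points are pairwise different (`CX_disjoint`). The set
`F = {e'.2.2 (ρ (e.2.2 i)) : e ∈ A, e' ∈ E, e.2.2 i ∈ CX n e'.1 e'.2.1}` has at most `#A * aleph (n+1) < continuum`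
elements (`mk_cones_lt`, `hinj`, `aleph_lt_continuum`), so some `y = x_b` is not in `F`. If `Adj y (e.2.2 i)` for some `e ∈ A`, then by
`hAdj` there is `e' ∈ E` with either `e.2.2 i = e'.2.2 (ρ y)` - then `ρ y ≤ ρ (e'.2.2 (ρ y)) = ρ (e.2.2 i) ≤ β < i' ≤ ρ y` by `hrk`,
contradiction - or `e.2.2 i` in the cone of `e'` and `y = e'.2.2 (ρ (e.2.2 i)) ∈ F`, contradiction. -/
theorem exists_target (hc : ∀ n : ℕ, (2 : Cardinal.{0}) ^ Cardinal.aleph (n : Ordinal.{0}) = 2 ^ ℵ₀) (n : ℕ)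
    (ρ : R (om (n + 1)) → Set.Iio (om (n + 1)))
    (hρ : ∀ (σ : Scheme (om (n + 1))) (i : Set.Iio (om (n + 1))),
      (Cardinal.continuum : Cardinal.{1}) ≤ #{b : Br // ∀ x ∈ CX n σ b, i ≤ ρ x})
    (E : Set (Scheme (om (n + 1)) × Br × (Set.Iio (om (n + 1)) → R (om (n + 1)))))
    (Adj : R (om (n + 1)) → R (om (n + 1)) → Prop)
    (hAdj : ∀ x y, Adj x y ↔ ∃ e ∈ E, (x ∈ CX n e.1 e.2.1 ∧ y = e.2.2 (ρ x)) ∨ (y ∈ CX n e.1 e.2.1 ∧ x = e.2.2 (ρ y)))
    (hinj : ∀ e ∈ E, ∀ e' ∈ E, CX n e.1 e.2.1 = CX n e'.1 e'.2.1 → e = e')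
    (hrk : ∀ e ∈ E, ∀ i, i ≤ ρ (e.2.2 i))
    (S : Set (R (om (n + 1)))) (σ : Scheme (om (n + 1))) (hS : ∀ b, (S ∩ CX n σ b).Nonempty)
    (i : Set.Iio (om (n + 1))) :
    ∃ y ∈ S, i ≤ ρ y ∧ ∀ e ∈ E, (∃ b, CX n σ b ⊂ CX n e.1 e.2.1) → ¬ Adj y (e.2.2 i) := by
  classical
  -- the set of edges whose cone properly contains a cone of the scheme
  let A : Set (Scheme (om (n + 1)) × Br × (Set.Iio (om (n + 1)) → R (om (n + 1)))) :=
    {e | e ∈ E ∧ ∃ b, CX n σ b ⊂ CX n e.1 e.2.1}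
  have hA : #A < Cardinal.aleph ((n + 1 : ℕ) : Ordinal.{1}) := by
    refine lt_of_le_of_lt ?_ (mk_above_lt n σ)
    let g : A → {W : Set (R (om (n + 1))) // ∃ b, CX n σ b ⊂ W ∧ ∃ σ' b', W = CX n σ' b'} :=
      fun e => ⟨CX n e.1.1 e.1.2.1, e.2.2.choose, e.2.2.choose_spec, e.1.1, e.1.2.1, rfl⟩
    refine Cardinal.mk_le_of_injective (f := g) ?_
    intro e e' h
    exact Subtype.ext (hinj _ e.2.1 _ e'.2.1 (congrArg Subtype.val h))
  -- the bound
  obtain ⟨β0, hβ0, hβ0'⟩ := exists_bound (n := n)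
    ((fun e : Scheme (om (n + 1)) × Br × (Set.Iio (om (n + 1)) → R (om (n + 1))) =>
      (ρ (e.2.2 i) : Ordinal.{0})) '' A)
    (by
      rintro _ ⟨e, -, rfl⟩
      exact (ρ (e.2.2 i)).2)
    (lt_of_le_of_lt Cardinal.mk_image_le hA)
  have hlim : max β0 (i : Ordinal.{0}) + 1 < om (n + 1) := by
    have h1 : Order.IsSuccLimit (om (n + 1)) := Cardinal.isSuccLimit_ord (Cardinal.aleph0_le_aleph _)
    rw [← Order.succ_eq_add_one]
    exact h1.succ_lt (max_lt hβ0 i.2)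
  let i' : Set.Iio (om (n + 1)) := ⟨max β0 (i : Ordinal.{0}) + 1, hlim⟩
  have hlt : ∀ a : Set.Iio (om (n + 1)), (a : Ordinal.{0}) ≤ max β0 (i : Ordinal.{0}) → a < i' := by
    intro a ha
    change (a : Ordinal.{0}) < max β0 (i : Ordinal.{0}) + 1
    exact lt_of_le_of_lt ha (Order.lt_add_one_iff.2 le_rfl)
  -- the forbidden points
  let Fi : A → Type 1 := fun e => {e' // e' ∈ E ∧ e.1.2.2 i ∈ CX n e'.1 e'.2.1}
  have hFi : ∀ e, #(Fi e) ≤ Cardinal.aleph ((n + 1 : ℕ) : Ordinal.{1}) := by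
    intro e
    refine le_trans ?_ (mk_cones_lt n (e.1.2.2 i)).le
    let g : Fi e → {W : Set (R (om (n + 1))) // e.1.2.2 i ∈ W ∧ ∃ σ b, W = CX n σ b} :=
      fun e' => ⟨CX n e'.1.1 e'.1.2.1, e'.2.2, e'.1.1, e'.1.2.1, rfl⟩
    refine Cardinal.mk_le_of_injective (f := g) ?_
    intro e1 e2 h
    exact Subtype.ext (hinj _ e1.2.1 _ e2.2.1 (congrArg Subtype.val h))
  let G : (Σ e : A, Fi e) → R (om (n + 1)) := fun z => z.2.1.2.2 (ρ (z.1.1.2.2 i))
  have hF : #(Set.range G) < (Cardinal.continuum : Cardinal.{1}) := by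
    refine lt_of_le_of_lt Cardinal.mk_range_le ?_
    rw [Cardinal.mk_sigma]
    refine lt_of_le_of_lt (Cardinal.sum_le_sum _ (fun _ =>
      Cardinal.aleph ((n + 1 : ℕ) : Ordinal.{1})) hFi) ?_
    rw [Cardinal.sum_const']
    refine lt_of_le_of_lt (mul_le_mul_left hA.le _) ?_
    rw [Cardinal.mul_eq_self (Cardinal.aleph0_le_aleph _)]
    exact aleph_lt_continuum hc (n + 1)
  -- the many branches
  have hbr := hρ σ i'
  let x : {b : Br // ∀ x ∈ CX n σ b, i' ≤ ρ x} → R (om (n + 1)) := fun b => (hS b.1).choose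
  have hx : ∀ b, x b ∈ S ∩ CX n σ b.1 := fun b => (hS b.1).choose_spec
  have hxinj : Function.Injective x := by
    intro b b' h
    by_contra hne
    have h1 := CX_disjoint n σ b.1 b'.1 (fun h' => hne (Subtype.ext h'))
    exact Set.disjoint_left.1 h1 (hx b).2 (h ▸ (hx b').2)
  have hex : ∃ b, x b ∉ Set.range G := by
    by_contra hcon
    push Not at hcon
    have h1 : #{b : Br // ∀ x ∈ CX n σ b, i' ≤ ρ x} ≤ #(Set.range G) :=
      Cardinal.mk_le_of_injective (f := fun b => (⟨x b, hcon b⟩ : Set.range G))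
        fun b b' h => hxinj (congrArg Subtype.val h)
    exact absurd (hbr.trans h1) (not_le.2 hF)
  obtain ⟨b, hb⟩ := hex
  have hib : i' ≤ ρ (x b) := b.2 _ (hx b).2
  refine ⟨x b, (hx b).1, (hlt i (le_max_right _ _)).le.trans hib, ?_⟩
  intro e he hbe hadj
  obtain ⟨e', he', h | h⟩ := (hAdj _ _).1 hadj
  · have h1 : ρ (x b) ≤ ρ (e.2.2 i) := by
      rw [h.2]
      exact hrk e' he' _
    have h2 : ρ (e.2.2 i) < i' :=
      hlt _ (le_max_of_le_left (hβ0' _ ⟨e, ⟨he, hbe⟩, rfl⟩))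
    exact absurd (h1.trans_lt h2) (not_lt.2 hib)
  · exact hb ⟨⟨⟨e, he, hbe⟩, ⟨e', he', h.1⟩⟩, h.2.symm⟩

end Pool.Agent.H.MP_353193_lc
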