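import Pool.Agent.H.MP_353193_lc.RecE

/-!
# Labels
-/

set_option autoImplicit false

open Cardinal Ordinal Set

universe u

namespace Pool.Agent.H.MP_353193_lc

theorem exists_inj_choice {N P : Type u} (κ : Cardinal.{u}) (hκ : ℵ₀ ≤ κ) (hP : #P ≤ κ)
    (A : P → Set N) (hA : ∀ p, κ ≤ #(A p)) : ∃ g : P → N, Function.Injective g ∧ ∀ p, g p ∈ A p := by
  classical
  obtain ⟨lo, hwf, hsm⟩ := exists_wellOrder κ hκ P hP
  letI := lo
  haveI := hwf
  have key : ∀ (p : P) (r : ∀ p' : P, p' < p → N), ∃ x ∈ A p, ∀ (p' : P) (h : p' < p), r p' h ≠ x := by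
    intro p r
    by_contra hcon
    push Not at hcon
    have h1 : A p ⊆ range fun q : {p' : P // p' < p} => r q.1 q.2 := by
      intro x hx
      obtain ⟨p', h', e⟩ := hcon x hx
      exact ⟨⟨p', h'⟩, e⟩
    have h2 : #(A p) ≤ #{p' : P // p' < p} := (Cardinal.mk_le_mk_of_subset h1).trans Cardinal.mk_range_le
    have h3 : #{p' : P // p' < p} ≤ #{p' : P // p' ≤ p} :=
      Cardinal.mk_subtype_mono fun q hq => le_of_lt hq
    exact absurd (lt_of_le_of_lt (((hA p).trans h2).trans h3) (hsm p)) (lt_irrefl _)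
  let g : P → N := (wellFounded_lt (α := P)).fix fun p r => (key p r).choose
  have hg : ∀ p, g p = (key p fun p' _ => g p').choose := fun p =>
    WellFounded.fix_eq _ (fun p r => (key p r).choose) p
  have hlt : ∀ p q, p < q → g p ≠ g q := by
    intro p q hpq
    rw [hg q]
    exact (key q fun p' _ => g p').choose_spec.2 p hpq
  refine ⟨g, ?_, ?_⟩
  · intro p q hpq
    rcases lt_trichotomy p q with h | h | h
    · exact absurd hpq (hlt p q h)
    · exact h
    · exact absurd hpq.symm (hlt q p h)
  · intro p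
    rw [hg p]
    exact (key p fun p' _ => g p').choose_spec.1

/-- Injective choice with multiplicity. Index set `P = Φ × I × B` (size `≤ κ`); with the well-order of `exists_wellOrder`
choose by transfinite recursion `g p ∈ range (F p.1)` different from all `g p'`, `p' < p` (the range of `F φ` has size `κ`,
fewer than `κ` values are forbidden). Put `lab (g (φ,i,k)) = some i` (well defined by injectivity), `none` elsewhere.
For fixed `φ, i` the map `k ↦` the `b` with `F φ b = g (φ,i,k)` is injective, so there are `≥ κ` such `b`. -/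
theorem exists_label {N Φ B I : Type u} (κ : Cardinal.{u}) (hκ : ℵ₀ ≤ κ) (F : Φ → B → N)
    (hF : ∀ φ, Function.Injective (F φ)) (hB : #B = κ) (hΦ : #Φ ≤ κ) (hI : #I ≤ κ) :
    ∃ lab : N → Option I, ∀ φ i, κ ≤ #{b : B // lab (F φ b) = some i} := by
  classical
  have hP : #(Φ × I × B) ≤ κ := by
    rw [Cardinal.mk_prod, Cardinal.mk_prod, Cardinal.lift_id, Cardinal.lift_id, Cardinal.lift_id,
      Cardinal.lift_id, hB]
    calc #Φ * (#I * κ) ≤ κ * (κ * κ) := by gcongr
      _ = κ := by rw [Cardinal.mul_eq_self hκ, Cardinal.mul_eq_self hκ]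
  obtain ⟨g, hinj, hmem⟩ := exists_inj_choice κ hκ hP (fun p => range (F p.1))
    (fun p => by rw [Cardinal.mk_range_eq _ (hF p.1), hB])
  refine ⟨fun x => if h : ∃ p, g p = x then some h.choose.2.1 else none, ?_⟩
  have hlab : ∀ p, (if h : ∃ q, g q = g p then some h.choose.2.1 else none) = some p.2.1 := by
    intro p
    have h : ∃ q, g q = g p := ⟨p, rfl⟩
    rw [dif_pos h]
    have h1 : h.choose = p := hinj h.choose_spec
    rw [h1]
  intro φ i
  have hch : ∀ k : B, ∃ b : B, F φ b = g (φ, i, k) := fun k => hmem (φ, i, k)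
  choose β hβ using hch
  rw [← hB]
  refine Cardinal.mk_le_of_injective (f := fun k : B => ⟨β k, ?_⟩) ?_
  · simp only
    rw [hβ k]
    exact hlab (φ, i, k)
  · intro k k' hkk
    have h1 : β k = β k' := congrArg Subtype.val hkk
    have h2 : g (φ, i, k) = g (φ, i, k') := by rw [← hβ k, ← hβ k', h1]
    have h3 := hinj h2
    exact congrArg (fun q : Φ × I × B => q.2.2) h3

end Pool.Agent.H.MP_353193_lc
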