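import Pool.Agent.H.MP_353193_lc.R2
import Pool.Agent.H.MP_353193_lc.K2
import Pool.Agent.H.MP_353193_lc.K3
import Pool.Agent.H.MP_353193_lc.RecG

/-!
# The rank
-/

set_option autoImplicit false

open Cardinal Ordinal Set

namespace Pool.Agent.H.MP_353193_lc

/-- THE RANK. `exists_label` with `N = Set (R (om (n+1)))`, `F = CX n`, `I = Iio (om (n+1))` gives labels on the branch cones.
`ρ x` = a bound `< om (n+1)` of the labels of the branch cones containing `x` (`mk_cones_lt`, `exists_bound`).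
If `lab (CX n σ b) = some i` then `i ≤ ρ x` for all `x ∈ CX n σ b`. -/
theorem exists_rank (hc : ∀ n : ℕ, (2 : Cardinal.{0}) ^ Cardinal.aleph (n : Ordinal.{0}) = 2 ^ ℵ₀) (n : ℕ) :
    ∃ ρ : R (om (n + 1)) → Set.Iio (om (n + 1)), ∀ (σ : Scheme (om (n + 1))) (i : Set.Iio (om (n + 1))),
      (Cardinal.continuum : Cardinal.{1}) ≤ #{b : Br // ∀ x ∈ CX n σ b, i ≤ ρ x} := by
  classical
  obtain ⟨lab, hlab⟩ := exists_label (N := Set (R (om (n + 1)))) (Φ := Scheme (om (n + 1)))
    (B := Br) (I := Set.Iio (om (n + 1))) (Cardinal.continuum : Cardinal.{1})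
    Cardinal.aleph0_le_continuum (CX n)
    (by
      intro σ b b' h
      by_contra hne
      obtain ⟨x, hx⟩ := CX_nonempty n σ b
      exact Set.disjoint_left.1 (CX_disjoint n σ b b' hne) hx (h ▸ hx))
    mk_Br (mk_Scheme_le hc (n + 1))
    (by
      rw [mk_Iio_om]
      exact (aleph_lt_continuum hc (n + 1)).le)
  have hpos : 0 < om (n + 1) := by
    have h1 : Order.IsSuccLimit (om (n + 1)) := Cardinal.isSuccLimit_ord (Cardinal.aleph0_le_aleph _)
    exact h1.bot_lt
  have hbd : ∀ x : R (om (n + 1)), ∃ β : Set.Iio (om (n + 1)),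
      ∀ W : Set (R (om (n + 1))), x ∈ W → (∃ σ b, W = CX n σ b) → ∀ j, lab W = some j → j ≤ β := by
    intro x
    let f : {W : Set (R (om (n + 1))) // x ∈ W ∧ ∃ σ b, W = CX n σ b} → Ordinal.{0} :=
      fun W => (lab W.1).elim 0 (fun j => (j : Ordinal.{0}))
    obtain ⟨β, hβ, hβ'⟩ := exists_bound (n := n) (Set.range f)
      (by
        rintro _ ⟨W, rfl⟩
        change (lab W.1).elim 0 (fun j => (j : Ordinal.{0})) < om (n + 1)
        rcases lab W.1 with _ | j
        · exact hpos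
        · exact j.2)
      (lt_of_le_of_lt Cardinal.mk_range_le (mk_cones_lt n x))
    refine ⟨⟨β, hβ⟩, fun W hxW hW j hj => ?_⟩
    have h1 := hβ' _ ⟨⟨W, hxW, hW⟩, rfl⟩
    change (lab W).elim 0 (fun j => (j : Ordinal.{0})) ≤ β at h1
    rw [hj] at h1
    exact h1
  choose ρ hρ using hbd
  refine ⟨ρ, fun σ i => (hlab σ i).trans (Cardinal.mk_subtype_mono fun b hb x hx => ?_)⟩
  exact hρ x _ hx ⟨σ, b, rfl⟩ i hb

end Pool.Agent.H.MP_353193_lc
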