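import Pool.Agent.H.MP_353193_lc.RecB

/-!
# Triangle-freeness
-/

set_option autoImplicit false

open Cardinal Ordinal Set

universe u

namespace Pool.Agent.H.MP_353193_lc

variable {X I T B : Type u} [LinearOrder T] [WellFoundedLT T]

/-- No transitive triangle: `x → y` at `t1`, `x → z` at `t2`, `y` adjacent to `z`, `t2 < t1`. The two cones both contain `x`,
so they are nested (`hnest`); `C t2 b2 ⊆ C t1 b1` is excluded by the first clause of `OK` at `t1`, so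
`C t1 b1 ⊆ C t2 b2`. With `i = ρ x` we have `y = Y t1 i`, `z = Y t2 i`. The edge `y z` was put at some task `t3` whose source
is `y` or `z`; the source is `Y t1 i` or `Y t2 i` and lies in the cone of `t3`, so `t3 < t1` or `t3 < t2 < t1`
by `lt_of_target_mem`. Hence `AdjLt t1 y z`, against the third clause of `OK` at `t1`. -/
theorem no_transitive_lt (C : T → B → Set X) (Y : T → I → X) (ρ : X → I) (acc : T → Option B)
    (hacc : ∀ t b, acc t = some b → OK C Y ρ acc t b)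
    (hnest : ∀ t b t' b', (C t b ∩ C t' b').Nonempty → C t b ⊆ C t' b' ∨ C t' b' ⊆ C t b)
    (x y z : X) (t1 t2 : T) (b1 b2 : B) (h1 : acc t1 = some b1) (h2 : acc t2 = some b2)
    (a1 : Arr C Y ρ t1 b1 x y) (a2 : Arr C Y ρ t2 b2 x z) (hlt : t2 < t1) (hyz : AdjA C Y ρ acc y z) : False := by
  obtain ⟨hx1, rfl⟩ := a1
  obtain ⟨hx2, rfl⟩ := a2
  have hAdj : AdjLt C Y ρ acc t1 (Y t1 (ρ x)) (Y t2 (ρ x)) := by
    obtain ⟨t3, b3, h3, h | h⟩ := hyz
    · exact ⟨t3, lt_of_target_mem C Y ρ acc hacc t1 t3 b3 (ρ x) h3 h.1, b3, h3, Or.inl h⟩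
    · exact ⟨t3, (lt_of_target_mem C Y ρ acc hacc t2 t3 b3 (ρ x) h3 h.1).trans hlt, b3, h3, Or.inr h⟩
  rcases hnest t1 b1 t2 b2 ⟨x, hx1, hx2⟩ with h | h
  · exact (hacc t1 b1 h1).2.2 t2 hlt b2 h2 h (ρ x) hAdj
  · exact (hacc t1 b1 h1).1 t2 hlt b2 h2 h

/-- No transitive triangle at all: if `t1 = t2` then `b1 = b2` and `y = z`, impossible by `AdjA_irrefl`; otherwise
`no_transitive_lt` for `(y,z)` or for `(z,y)` (adjacency is symmetric). -/
theorem no_transitive (C : T → B → Set X) (Y : T → I → X) (ρ : X → I) (acc : T → Option B)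
    (hacc : ∀ t b, acc t = some b → OK C Y ρ acc t b)
    (hnest : ∀ t b t' b', (C t b ∩ C t' b').Nonempty → C t b ⊆ C t' b' ∨ C t' b' ⊆ C t b)
    (x y z : X) (t1 t2 : T) (b1 b2 : B) (h1 : acc t1 = some b1) (h2 : acc t2 = some b2)
    (a1 : Arr C Y ρ t1 b1 x y) (a2 : Arr C Y ρ t2 b2 x z) (hyz : AdjA C Y ρ acc y z) : False := by
  have hzy : AdjA C Y ρ acc z y := by
    obtain ⟨t3, b3, h3, h⟩ := hyz
    exact ⟨t3, b3, h3, h.symm⟩
  rcases lt_trichotomy t1 t2 with hlt | rfl | hlt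
  · exact no_transitive_lt C Y ρ acc hacc hnest x z y t2 t1 b2 b1 h2 h1 a2 a1 hlt hzy
  · obtain ⟨-, rfl⟩ := a1
    obtain ⟨-, rfl⟩ := a2
    exact AdjA_irrefl C Y ρ acc hacc _ hyz
  · exact no_transitive_lt C Y ρ acc hacc hnest x y z t1 t2 b1 b2 h1 h2 a1 a2 hlt hyz

/-- Triangle-freeness: a triangle has one orientation for each of its three edges; in each of the 8 cases it is
cyclic (`no_cyclic`) or some vertex is the source of two edges (`no_transitive`). -/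
theorem no_triangle (C : T → B → Set X) (Y : T → I → X) (ρ : X → I) (acc : T → Option B)
    (hacc : ∀ t b, acc t = some b → OK C Y ρ acc t b)
    (hnest : ∀ t b t' b', (C t b ∩ C t' b').Nonempty → C t b ⊆ C t' b' ∨ C t' b' ⊆ C t b)
    (x y z : X) (hxy : AdjA C Y ρ acc x y) (hyz : AdjA C Y ρ acc y z) (hxz : AdjA C Y ρ acc x z) : False := by
  have hsymm : ∀ u v, AdjA C Y ρ acc u v → AdjA C Y ρ acc v u := by
    rintro u v ⟨t, b, h, h'⟩
    exact ⟨t, b, h, h'.symm⟩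
  have hxy' := hxy
  have hyz' := hyz
  have hxz' := hxz
  obtain ⟨t1, b1, h1, a1 | a1⟩ := hxy'
  · obtain ⟨t3, b3, h3, a3 | a3⟩ := hxz'
    · exact no_transitive C Y ρ acc hacc hnest x y z t1 t3 b1 b3 h1 h3 a1 a3 hyz
    · obtain ⟨t2, b2, h2, a2 | a2⟩ := hyz'
      · exact no_cyclic C Y ρ acc hacc x y z t1 t2 t3 b1 b2 b3 h1 h2 h3 a1 a2 a3
      · exact no_transitive C Y ρ acc hacc hnest z x y t3 t2 b3 b2 h3 h2 a3 a2 hxy
  · obtain ⟨t2, b2, h2, a2 | a2⟩ := hyz'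
    · exact no_transitive C Y ρ acc hacc hnest y x z t1 t2 b1 b2 h1 h2 a1 a2 hxz
    · obtain ⟨t3, b3, h3, a3 | a3⟩ := hxz'
      · exact no_cyclic C Y ρ acc hacc x z y t3 t2 t1 b3 b2 b1 h3 h2 h1 a3 a2 a1
      · exact no_transitive C Y ρ acc hacc hnest z x y t3 t2 b3 b2 h3 h2 a3 a2 hxy

end Pool.Agent.H.MP_353193_lc
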