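import Pool.Agent.H.MP_353193_lc.DefsR

/-!
# A branch that avoids the earlier cones and targets
-/

set_option autoImplicit false

open Cardinal Ordinal Set

universe u

namespace Pool.Agent.H.MP_353193_lc

variable {X I T B : Type u} [LinearOrder T] [WellFoundedLT T]

/-- the branch `b` is excluded by the index `z` -/
private def RecD_bad (C : T → B → Set X) (Y : T → I → X) (acc : T → Option B) (t : T)
    (z : {t' : T // t' ≤ t} ⊕ ({t' : T // t' ≤ t} × I)) (b : B) : Prop :=
  match z with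
  | Sum.inl t' => ∃ b', acc t'.1 = some b' ∧ C t'.1 b' ⊆ C t b
  | Sum.inr p => Y p.1.1 p.2 ∈ C t b

/-- Choice of a branch: at task `t` some branch satisfies the first two clauses of `OK`. The cones `C t b` (b in B) are
pairwise disjoint. For each `t' < t` accepted with `b'` at most one `b` has `C t' b' ⊆ C t b` (the cone `C t' b'` is nonempty);
for each `t' ≤ t` and `i` at most one `b` has `Y t' i ∈ C t b`. So at most `#{t' ≤ t} + #{t' ≤ t} * #I < κ = #B`
branches are excluded (`κ` infinite, `Cardinal.mul_lt_of_lt`, `Cardinal.add_lt_of_lt`). -/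
theorem exists_branch (κ : Cardinal.{u}) (hκ : ℵ₀ ≤ κ) (hB : #B = κ) (hI : #I < κ)
    (hT : ∀ t : T, #{t' : T // t' ≤ t} < κ)
    (C : T → B → Set X) (Y : T → I → X) (acc : T → Option B)
    (hne : ∀ t b, (C t b).Nonempty) (hdisj : ∀ t b b', b ≠ b' → Disjoint (C t b) (C t b')) (t : T) :
    ∃ b, (∀ t', t' < t → ∀ b', acc t' = some b' → ¬ C t' b' ⊆ C t b) ∧ (∀ t', t' ≤ t → ∀ i, Y t' i ∉ C t b) := by
  by_contra hcon
  have hex : ∀ b, ∃ z, RecD_bad C Y acc t z b := by
    intro b
    by_contra hb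
    refine hcon ⟨b, fun t' ht' b' hb' hsub => ?_, fun t' ht' i hi => ?_⟩
    · exact hb ⟨Sum.inl ⟨t', ht'.le⟩, b', hb', hsub⟩
    · exact hb ⟨Sum.inr (⟨t', ht'⟩, i), hi⟩
  choose F hF using hex
  have hinj : Function.Injective F := by
    intro b b' hbb'
    by_contra hne'
    have h1 := hF b
    have h2 := hF b'
    rw [← hbb'] at h2
    have hd := hdisj t b b' hne'
    rcases hz : F b with t' | p
    · rw [hz] at h1 h2
      obtain ⟨b1, hb1, hs1⟩ := h1
      obtain ⟨b2, hb2, hs2⟩ := h2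
      rw [hb1] at hb2
      obtain rfl := Option.some.inj hb2
      obtain ⟨x, hx⟩ := hne t'.1 b1
      exact Set.disjoint_left.1 hd (hs1 hx) (hs2 hx)
    · rw [hz] at h1 h2
      exact Set.disjoint_left.1 hd h1 h2
  have hle := Cardinal.mk_le_of_injective hinj
  have hcard : #({t' : T // t' ≤ t} ⊕ ({t' : T // t' ≤ t} × I)) =
      #{t' : T // t' ≤ t} + #{t' : T // t' ≤ t} * #I := by
    simp only [Cardinal.mk_sum, Cardinal.mk_prod, Cardinal.lift_id]
  rw [hcard, hB] at hle
  exact absurd hle (not_le.2 (Cardinal.add_lt_of_lt hκ (hT t)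
    (Cardinal.mul_lt_of_lt hκ (hT t) hI)))

end Pool.Agent.H.MP_353193_lc
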