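import Pool.Agent.H.MP_353193_lc.DefsR

/-!
# Well-orders with small initial segments
-/

set_option autoImplicit false

open Cardinal Ordinal Set

universe u

namespace Pool.Agent.H.MP_353193_lc

/-- Every set of cardinality at most `κ` carries a well-order all of whose closed initial segments have size `< κ`
(`κ` infinite): transport the order of `κ.ord.toType` (or of a subset of it) along an injection; an initial segment of
`κ.ord` has cardinality `< κ` and adding one point keeps it `< κ`. -/
theorem exists_wellOrder (κ : Cardinal.{u}) (hκ : ℵ₀ ≤ κ) (T : Type u) (hT : #T ≤ κ) :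
    ∃ (lo : LinearOrder T), @WellFoundedLT T lo.toLT ∧ ∀ t : T, #{t' : T // lo.le t' t} < κ := by
  classical
  obtain ⟨r, wo, h⟩ := Cardinal.exists_ord_eq T
  refine ⟨linearOrderOfSTO r, ?_, ?_⟩
  · exact ⟨wo.wf⟩
  · intro t
    have h1 : #{t' : T // r t' t} < κ := by
      refine lt_of_lt_of_le ?_ hT
      exact Cardinal.card_typein_lt t h
    have h2 : {t' : T | t' = t ∨ r t' t} = insert t {t' | r t' t} := by
      ext x
      simp
    have h3 : #{t' : T | t' = t ∨ r t' t} < κ := by
      rw [h2]
      refine lt_of_le_of_lt Cardinal.mk_insert_le ?_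
      exact Cardinal.add_lt_of_lt hκ h1 (lt_of_lt_of_le Cardinal.one_lt_aleph0 hκ)
    exact h3

end Pool.Agent.H.MP_353193_lc
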