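import Pool.Agent.H.MP_353193_lc.RecA
import Pool.Agent.H.MP_353193_lc.RecC
import Pool.Agent.H.MP_353193_lc.RecD
import Pool.Agent.H.MP_353193_lc.RecE

/-!
# The abstract graph
-/

set_option autoImplicit false

open Cardinal Ordinal Set

universe u

namespace Pool.Agent.H.MP_353193_lc

/-- THE ABSTRACT GRAPH. From `exists_wellOrder` for the set of tasks `T = {(φ,Y) : Φ × (I → X) // ∀ i, i ≤ ρ (Y i)}`,
`exists_acc`, `AdjA_irrefl`, `no_triangle`, `exists_branch`. `E` = the set of `(φ, b, Y)` with `acc (φ,Y) = some b`.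
Clause 3: two accepted tasks with the same cone: the later one violates the first clause of `OK` unless they are equal.
Clause 5: for the task `t = (φ,Y)`: if `acc t = some b` we are in the first alternative. If `acc t = none`, take `b` of
`exists_branch`; since `¬ OK t b`, the third clause fails: there are `t' < t` accepted with `b'`,
`C t b ⊆ C t' b'` and `i` with `AdjLt t (Y t i) (Y t' i)`, so these are adjacent; the inclusion is strict by the choice of `b`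
(`¬ C t' b' ⊆ C t b`). -/
theorem abstract_graph {X I Φ B : Type u} [LinearOrder I] (κ : Cardinal.{u}) (hκ : ℵ₀ ≤ κ)
    (C : Φ → B → Set X) (ρ : X → I) (hB : #B = κ) (hI : #I < κ) (hT : #(Φ × (I → X)) ≤ κ)
    (hne : ∀ φ b, (C φ b).Nonempty) (hdisj : ∀ φ b b', b ≠ b' → Disjoint (C φ b) (C φ b'))
    (hnest : ∀ φ b φ' b', (C φ b ∩ C φ' b').Nonempty → C φ b ⊆ C φ' b' ∨ C φ' b' ⊆ C φ b) :
    ∃ (E : Set (Φ × B × (I → X))) (Adj : X → X → Prop),
      (∀ x y, Adj x y ↔ ∃ e ∈ E, (x ∈ C e.1 e.2.1 ∧ y = e.2.2 (ρ x)) ∨ (y ∈ C e.1 e.2.1 ∧ x = e.2.2 (ρ y))) ∧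
      (∀ x, ¬ Adj x x) ∧
      (∀ x y z, Adj x y → Adj y z → Adj x z → False) ∧
      (∀ e ∈ E, ∀ e' ∈ E, C e.1 e.2.1 = C e'.1 e'.2.1 → e = e') ∧
      (∀ e ∈ E, ∀ i, i ≤ ρ (e.2.2 i)) ∧
      (∀ (φ : Φ) (Y : I → X), (∀ i, i ≤ ρ (Y i)) →
        (∃ b, (φ, b, Y) ∈ E) ∨
        (∃ b, ∃ e ∈ E, C φ b ⊂ C e.1 e.2.1 ∧ ∃ i, Adj (Y i) (e.2.2 i))) := by
  classical
  let T := {p : Φ × (I → X) // ∀ i, i ≤ ρ (p.2 i)}
  have hTc : #T ≤ κ := (Cardinal.mk_subtype_le _).trans hT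
  obtain ⟨lo, hwf, hsm⟩ := exists_wellOrder κ hκ T hTc
  letI := lo
  haveI := hwf
  let C' : T → B → Set X := fun t b => C t.1.1 b
  let Y' : T → I → X := fun t => t.1.2
  obtain ⟨acc, hacc, hnone⟩ := exists_acc C' Y' ρ
  have hnest' : ∀ t b t' b', (C' t b ∩ C' t' b').Nonempty → C' t b ⊆ C' t' b' ∨ C' t' b' ⊆ C' t b :=
    fun t b t' b' h => hnest _ _ _ _ h
  let E : Set (Φ × B × (I → X)) := {e | ∃ h : ∀ i, i ≤ ρ (e.2.2 i), acc ⟨(e.1, e.2.2), h⟩ = some e.2.1}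
  have hE : ∀ (t : T) (b : B), acc t = some b → (t.1.1, b, t.1.2) ∈ E := by
    intro t b h
    exact ⟨t.2, h⟩
  refine ⟨E, AdjA C' Y' ρ acc, ?_, ?_, ?_, ?_, ?_, ?_⟩
  · intro x y
    constructor
    · rintro ⟨t, b, h, h'⟩
      exact ⟨_, hE t b h, h'⟩
    · rintro ⟨e, ⟨he, he'⟩, h⟩
      exact ⟨⟨(e.1, e.2.2), he⟩, e.2.1, he', h⟩
  · exact AdjA_irrefl C' Y' ρ acc hacc
  · exact no_triangle C' Y' ρ acc hacc hnest'
  · rintro e ⟨h, ha⟩ e' ⟨h', ha'⟩ heq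
    have key : (⟨(e.1, e.2.2), h⟩ : T) = ⟨(e'.1, e'.2.2), h'⟩ := by
      rcases lt_trichotomy (⟨(e.1, e.2.2), h⟩ : T) ⟨(e'.1, e'.2.2), h'⟩ with hlt | he | hlt
      · exact absurd heq.subset ((hacc _ _ ha').1 _ hlt _ ha)
      · exact he
      · exact absurd heq.symm.subset ((hacc _ _ ha).1 _ hlt _ ha')
    have h1 : (e.1, e.2.2) = (e'.1, e'.2.2) := congrArg Subtype.val key
    have h2 : some e.2.1 = some e'.2.1 := by rw [← ha, ← ha', key]
    have h3 := Option.some.inj h2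
    rcases e with ⟨a, b, c⟩
    rcases e' with ⟨a', b', c'⟩
    simp only [Prod.mk.injEq] at h1 h3 ⊢
    exact ⟨h1.1, h3, h1.2⟩
  · rintro e ⟨h, -⟩
    exact h
  · intro φ Y hY
    let t : T := ⟨(φ, Y), hY⟩
    by_cases hs : ∃ b, acc t = some b
    · obtain ⟨b, hb⟩ := hs
      exact Or.inl ⟨b, hE t b hb⟩
    · right
      have hn : acc t = none := by
        cases h : acc t with
        | none => rfl
        | some b => exact absurd ⟨b, h⟩ hs
      obtain ⟨b, hb1, hb2⟩ := exists_branch κ hκ hB hI hsm C' Y' acc (fun t b => hne _ _)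
        (fun t b b' h => hdisj _ _ _ h) t
      have hno := hnone t hn b
      unfold OK at hno
      push Not at hno
      obtain ⟨t', ht', b', hb', hsub, i, hadj⟩ := hno hb1 hb2
      refine ⟨b, _, hE t' b' hb', ⟨hsub, hb1 t' ht' b' hb'⟩, i, ?_⟩
      obtain ⟨t'', _, b'', h1, h2⟩ := hadj
      exact ⟨t'', b'', h1, h2⟩

end Pool.Agent.H.MP_353193_lc
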