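import Pool.Agent.H.MP_353193_lc.L1
import Pool.Agent.H.MP_353193_lc.R4
import Pool.Agent.H.MP_353193_lc.RecF

/-!
# The graph on one level
-/

set_option autoImplicit false

open Cardinal Ordinal Set

namespace Pool.Agent.H.MP_353193_lc

/-- THE GRAPH on `R (om (n+1))`. `abstract_graph` with `κ = continuum`, `C = CX n`, `ρ` of `exists_rank` (`mk_Br`,
`mk_Iio_om`, `aleph_lt_continuum`, `mk_task_le`). If `S` meets all cones of `σ` and is independent, choose `Y i ∈ S` by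
`exists_target`. By the last clause of `abstract_graph` either some `(σ, b, Y) ∈ E`: take `x ∈ S ∩ CX n σ b`, it is adjacent to
`Y (ρ x) ∈ S`; or some `e ∈ E` has `CX n σ b ⊂ CX n e.1 e.2.1` and `Adj (Y i) (e.2.2 i)`: excluded by the choice of `Y i`. -/
theorem exists_graph_level (hc : ∀ n : ℕ, (2 : Cardinal.{0}) ^ Cardinal.aleph (n : Ordinal.{0}) = 2 ^ ℵ₀) (n : ℕ) :
    ∃ Adj : R (om (n + 1)) → R (om (n + 1)) → Prop,
      (∀ x y, Adj x y → Adj y x) ∧ (∀ x, ¬ Adj x x) ∧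
      (∀ x y z, Adj x y → Adj y z → Adj x z → False) ∧
      (∀ (S : Set (R (om (n + 1)))) (σ : Scheme (om (n + 1))), (∀ b, (S ∩ CX n σ b).Nonempty) →
        ∃ x ∈ S, ∃ y ∈ S, Adj x y) := by
  classical
  obtain ⟨ρ, hρ⟩ := exists_rank hc n
  obtain ⟨E, Adj, hAdj, hirr, htri, hinj, hrk, hlast⟩ :=
    abstract_graph (X := R (om (n + 1))) (I := Set.Iio (om (n + 1))) (Φ := Scheme (om (n + 1)))
      (B := Br) Cardinal.continuum Cardinal.aleph0_le_continuum (CX n) ρ mk_Br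
      (by rw [mk_Iio_om]; exact aleph_lt_continuum hc (n + 1)) (mk_task_le hc (n + 1))
      (CX_nonempty n) (CX_disjoint n) (CX_nested n)
  refine ⟨Adj, ?_, hirr, htri, ?_⟩
  · intro x y h
    obtain ⟨e, he, h | h⟩ := (hAdj x y).1 h
    · exact (hAdj y x).2 ⟨e, he, Or.inr h⟩
    · exact (hAdj y x).2 ⟨e, he, Or.inl h⟩
  · intro S σ hS
    have key := fun i => exists_target hc n ρ hρ E Adj hAdj hinj hrk S σ hS i
    choose Y hY1 hY2 hY3 using key
    rcases hlast σ Y hY2 with ⟨b, hb⟩ | ⟨b, e, he, hsub, i, hadj⟩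
    · obtain ⟨x, hxS, hx⟩ := hS b
      exact ⟨x, hxS, Y (ρ x), hY1 _, (hAdj _ _).2 ⟨(σ, b, Y), hb, Or.inl ⟨hx, rfl⟩⟩⟩
    · exact absurd hadj (hY3 i e he ⟨b, hsub⟩)

end Pool.Agent.H.MP_353193_lc
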