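import Pool.Agent.H.MP_353193_lc.L2
import Pool.Agent.H.MP_353193_lc.E6

/-!
# If `2 ^ aleph n = 2 ^ aleph0` for all `n`, then `eta_omega` does not arrow `(3, eta_1)`
-/

set_option autoImplicit false

open Cardinal Ordinal Set

namespace Pool.Agent.H.MP_353193_lc

/-- The level graphs: `exists_graph_level` chosen for every `n`. `G.Adj x y` iff `x ≠ y`... : there are a common level
`n = lev x = lev y` and proofs that `x, y ∈ R (om (n+1))` with `Adj_n x y`. Triangle-free because the three vertices have the same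
level. For `φ`: `exists_scheme` gives `n, σ`; `S = {x : R (om (n+1)) | lev x = n ∧ ∃ f ∈ R (om 1), φ f = x}` meets all cones
`CX n σ b` (`mem_R_lev`), so two members of `S` are adjacent. -/
theorem neg_eta_one (hc : ∀ n : ℕ, (2 : Cardinal.{0}) ^ Cardinal.aleph (n : Ordinal.{0}) = 2 ^ ℵ₀) :
    ∃ G : SimpleGraph Seq,
      (∀ a ∈ R omω, ∀ b ∈ R omω, ∀ c ∈ R omω, ¬ (G.Adj a b ∧ G.Adj b c ∧ G.Adj a c)) ∧
      ∀ φ : Seq → Seq, (∀ f ∈ R (om 1), φ f ∈ R omω) →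
        (∀ f ∈ R (om 1), ∀ g ∈ R (om 1), lexlt f g → lexlt (φ f) (φ g)) →
        ∃ f ∈ R (om 1), ∃ g ∈ R (om 1), G.Adj (φ f) (φ g) := by
  classical
  choose Adj hsymm hirr htri hlast using exists_graph_level hc
  let P : Seq → Seq → Prop := fun x y => ∃ (hx : x ∈ R (om (lev x + 1))) (hy : y ∈ R (om (lev x + 1))),
    lev y = lev x ∧ Adj (lev x) ⟨x, hx⟩ ⟨y, hy⟩
  have hP : ∀ (n : ℕ) (x y : Seq), P x y → lev x = n →
      ∃ (hx : x ∈ R (om (n + 1))) (hy : y ∈ R (om (n + 1))), Adj n ⟨x, hx⟩ ⟨y, hy⟩ := by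
    rintro n x y ⟨hx, hy, _, h⟩ rfl
    exact ⟨hx, hy, h⟩
  have hPlev : ∀ x y : Seq, P x y → lev y = lev x := fun x y ⟨_, _, h, _⟩ => h
  have hPsymm : ∀ x y : Seq, P x y → P y x := by
    rintro x y ⟨hx, hy, h1, h2⟩
    have key : ∀ m : ℕ, lev x = m → lev y = m → P y x := by
      rintro m rfl h1
      refine ⟨?_, ?_, h1.symm, ?_⟩
      · rw [h1]; exact hy
      · rw [h1]; exact hx
      · have : ∀ k : ℕ, k = lev x → ∀ (hy' : y ∈ R (om (k + 1))) (hx' : x ∈ R (om (k + 1))),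
            Adj k ⟨y, hy'⟩ ⟨x, hx'⟩ := by
          rintro k rfl hy' hx'
          exact hsymm _ _ _ h2
        exact this _ h1 _ _
    exact key _ rfl h1
  refine ⟨{ Adj := P, symm := ⟨fun x y h => hPsymm x y h⟩, loopless := ⟨?_⟩ }, ?_, ?_⟩
  · rintro x ⟨hx, _, _, h⟩
    exact hirr _ _ h
  · rintro a _ b _ c _ ⟨h1, h2, h3⟩
    have h1' : P a b := h1
    have h2' : P b c := h2
    have h3' : P a c := h3
    obtain ⟨ha, hb, k1⟩ := hP (lev a) a b h1' rfl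
    obtain ⟨hb', hc', k2⟩ := hP (lev a) b c h2' (hPlev _ _ h1')
    obtain ⟨ha', hc'', k3⟩ := hP (lev a) a c h3' rfl
    exact htri _ _ _ _ k1 k2 k3
  · intro φ hR hlt
    obtain ⟨n, σ, hσ⟩ := exists_scheme φ hR hlt
    obtain ⟨x, ⟨hxn, f, hf, hfx⟩, y, ⟨hyn, g, hg, hgy⟩, hxy⟩ :=
      hlast n {x : R (om (n + 1)) | lev (x : Seq) = n ∧ ∃ f ∈ R (om 1), φ f = x} σ (by
        intro b
        obtain ⟨f, hf, hfn, hfb⟩ := hσ b.down
        have hmem : φ f ∈ R (om (n + 1)) := by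
          have := mem_R_lev (hR f hf)
          rwa [hfn] at this
        exact ⟨⟨φ f, hmem⟩, ⟨hfn, f, hf, rfl⟩, hfb⟩)
    refine ⟨f, hf, g, hg, ?_⟩
    change P (φ f) (φ g)
    rw [hfx, hgy]
    have key : ∀ (x' y' : Seq) (hx : x' ∈ R (om (n + 1))) (hy : y' ∈ R (om (n + 1))), lev x' = n →
        lev y' = n → Adj n ⟨x', hx⟩ ⟨y', hy⟩ → P x' y' := by
      intro x' y' hx hy h1 h2 h3
      have key2 : ∀ k : ℕ, k = n → ∃ (hx : x' ∈ R (om (k + 1))) (hy : y' ∈ R (om (k + 1))),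
          lev y' = k ∧ Adj k ⟨x', hx⟩ ⟨y', hy⟩ := by
        rintro k rfl
        exact ⟨hx, hy, h2, h3⟩
      exact key2 _ h1
    exact key _ _ x.2 y.2 hxn hyn hxy

end Pool.Agent.H.MP_353193_lc
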