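import Pool.Agent.H.MP_353193_lc.M1

/-!
# The negation of the partition relation
-/

set_option autoImplicit false

open Cardinal Ordinal Set

namespace Pool.Agent.H.MP_353193_lc

/-- The negation of the partition relation in the form of the frozen statement: an embedding of `R omω` restricts to
`R (om 1)` (`R_mono`, `om_lt_omω`). -/
theorem neg_main (hc : ∀ n : ℕ, (2 : Cardinal.{0}) ^ Cardinal.aleph (n : Ordinal.{0}) = 2 ^ ℵ₀) :
    ¬ (∀ (R : Set (Ordinal.{0} → Bool)) (lt : (Ordinal.{0} → Bool) → (Ordinal.{0} → Bool) → Prop),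
      (∀ f, f ∈ R ↔ ((∃ ν, f ν = true) ∧
          ∃ β : Ordinal.{0}, β < (Cardinal.aleph (Ordinal.omega0 : Ordinal.{0})).ord ∧
            ∀ ν, f ν = true → ν < β)) →
      (∀ f g, lt f g ↔ ∃ ν : Ordinal.{0}, (∀ μ, μ < ν → f μ = g μ) ∧ f ν = false ∧ g ν = true) →
      ∀ G : SimpleGraph (Ordinal.{0} → Bool),
        (∀ a ∈ R, ∀ b ∈ R, ∀ c ∈ R, ¬ (G.Adj a b ∧ G.Adj b c ∧ G.Adj a c)) →
        ∃ φ : (Ordinal.{0} → Bool) → (Ordinal.{0} → Bool),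
          (∀ f ∈ R, φ f ∈ R) ∧
          (∀ f ∈ R, ∀ g ∈ R, lt f g → lt (φ f) (φ g)) ∧
          (∀ f ∈ R, ∀ g ∈ R, ¬ G.Adj (φ f) (φ g))) := by
  intro H
  obtain ⟨G, hG, hφ⟩ := neg_eta_one hc
  obtain ⟨φ, h1, h2, h3⟩ := H (R omω) lexlt (fun _ => Iff.rfl) (fun _ _ => Iff.rfl) G hG
  have hsub : R (om 1) ⊆ R omω := R_mono (om_lt_omω 1).le
  obtain ⟨f, hf, g, hg, hadj⟩ := hφ φ (fun f hf => h1 f (hsub hf))
    (fun f hf g hg h => h2 f (hsub hf) g (hsub hg) h)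
  exact h3 f (hsub hf) g (hsub hg) hadj

end Pool.Agent.H.MP_353193_lc
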