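import Pool.Agent.H.MP_353193_lc.DefsX
import Pool.Agent.H.MP_353193_lc.B4
import Pool.Agent.H.MP_353193_lc.K1

/-!
# Candidate cones
-/

set_option autoImplicit false

open Cardinal Ordinal Set

namespace Pool.Agent.H.MP_353193_lc

/-- `#Br = continuum`. -/
theorem mk_Br : #Br = (Cardinal.continuum : Cardinal.{1}) := by
  have h1 : #(ℕ → Bool) = Cardinal.continuum := by
    rw [← Cardinal.power_def, Cardinal.mk_bool, Cardinal.mk_nat]
    exact Cardinal.two_power_aleph0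
  show #(ULift.{1} (ℕ → Bool)) = _
  rw [Cardinal.mk_uLift, h1, Cardinal.lift_continuum]

/-- Nonempty: `Cs_nonempty`. -/
theorem CX_nonempty (n : ℕ) (σ : Scheme (om (n + 1))) (b : Br) : (CX n σ b).Nonempty := by
  obtain ⟨x, hx, hR⟩ := Cs_nonempty σ b.down
  exact ⟨⟨x, hR⟩, hx⟩

/-- Disjoint: `Cs_disjoint`. -/
theorem CX_disjoint (n : ℕ) (σ : Scheme (om (n + 1))) (b b' : Br) (h : b ≠ b') :
    Disjoint (CX n σ b) (CX n σ b') := by
  have h1 : b.down ≠ b'.down := fun h2 => h (ULift.ext _ _ h2)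
  rw [Set.disjoint_left]
  intro x hx hx'
  exact Set.disjoint_left.1 (Cs_disjoint σ h1) hx hx'

/-- Nested or disjoint: `Cs_nested`. -/
theorem CX_nested (n : ℕ) (σ : Scheme (om (n + 1))) (b : Br) (σ' : Scheme (om (n + 1))) (b' : Br)
    (h : (CX n σ b ∩ CX n σ' b').Nonempty) : CX n σ b ⊆ CX n σ' b' ∨ CX n σ' b' ⊆ CX n σ b := by
  obtain ⟨x, hx, hx'⟩ := h
  rcases Cs_nested σ b.down σ' b'.down ⟨x, hx, hx'⟩ with h1 | h1
  · exact Or.inl fun y hy => h1 hy
  · exact Or.inr fun y hy => h1 hy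

end Pool.Agent.H.MP_353193_lc
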