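import Pool.Agent.H.MP_353193_lc.R1
import Pool.Agent.H.MP_353193_lc.K1

/-!
# Few branch cones contain a given point
-/

set_option autoImplicit false

open Cardinal Ordinal Set

namespace Pool.Agent.H.MP_353193_lc

/-- The number of branch cones that contain a given point `x` of `R (om (n+1))` is `< aleph (n+1)`: let the support of `x` be
bounded by `β < om (n+1)`; a branch cone containing `x` is determined by its length `blen ≤ β` (`blen_le`, `mem_Cs_iff`), so
there is an injection of the set of these cones into `Iic β` (choose `σ, b` for each cone), `mk_Iic_lt`. -/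
theorem mk_cones_lt (n : ℕ) (x : R (om (n + 1))) :
    #{W : Set (R (om (n + 1))) // x ∈ W ∧ ∃ σ b, W = CX n σ b} < Cardinal.aleph ((n + 1 : ℕ) : Ordinal.{1}) := by
  obtain ⟨-, β, hβ, hx⟩ := x.2
  have key : ∀ W : {W : Set (R (om (n + 1))) // x ∈ W ∧ ∃ σ b, W = CX n σ b},
      ∃ δ : Set.Iic β, ∀ y : R (om (n + 1)), y ∈ W.1 ↔ ∀ μ, μ < δ.1 → (y : Seq) μ = (x : Seq) μ := by
    rintro ⟨W, hxW, σ, b, rfl⟩
    have hxC : (x : Seq) ∈ Cs σ b.down := hxW
    exact ⟨⟨blen σ b.down, blen_le σ b.down hxC hx⟩, fun y => mem_Cs_iff σ b.down hxC y⟩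
  choose f hf using key
  refine lt_of_le_of_lt (Cardinal.mk_le_of_injective (f := f) ?_) (mk_Iic_lt hβ)
  intro W W' h
  apply Subtype.ext
  ext y
  rw [hf W y, hf W' y, h]

end Pool.Agent.H.MP_353193_lc
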