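import Pool.Agent.H.MP_353193_lc.DefsR

/-!
# The acceptance function
-/

set_option autoImplicit false

open Cardinal Ordinal Set

universe u

namespace Pool.Agent.H.MP_353193_lc

variable {X I T B : Type u} [LinearOrder T] [WellFoundedLT T]

/-- `OK` at `t` depends only on the values of `acc` below `t`. Immediate from the definitions (`AdjLt` at `t` uses only
tasks `< t`). -/
theorem OK_congr (C : T → B → Set X) (Y : T → I → X) (ρ : X → I) (acc acc' : T → Option B) (t : T) (b : B)
    (h : ∀ t', t' < t → acc t' = acc' t') : OK C Y ρ acc t b ↔ OK C Y ρ acc' t b := by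
  have hA : ∀ x y, AdjLt C Y ρ acc t x y ↔ AdjLt C Y ρ acc' t x y := by
    intro x y
    constructor
    · rintro ⟨t', ht', b', hb', h1⟩
      exact ⟨t', ht', b', by rw [← h t' ht']; exact hb', h1⟩
    · rintro ⟨t', ht', b', hb', h1⟩
      exact ⟨t', ht', b', by rw [h t' ht']; exact hb', h1⟩
  constructor
  · rintro ⟨h1, h2, h3⟩
    refine ⟨fun t' ht' b' hb' => h1 t' ht' b' (by rw [h t' ht']; exact hb'), h2, ?_⟩
    intro t' ht' b' hb' hs i hi
    exact h3 t' ht' b' (by rw [h t' ht']; exact hb') hs i ((hA _ _).2 hi)
  · rintro ⟨h1, h2, h3⟩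
    refine ⟨fun t' ht' b' hb' => h1 t' ht' b' (by rw [← h t' ht']; exact hb'), h2, ?_⟩
    intro t' ht' b' hb' hs i hi
    exact h3 t' ht' b' (by rw [← h t' ht']; exact hb') hs i ((hA _ _).1 hi)

/-- Existence of the acceptance function: transfinite recursion (`WellFounded.fix` on `T`): at `t` take the function
`acc'` equal to the values already defined below `t` and `none` elsewhere; if some `b` satisfies `OK acc' t b` choose one,
otherwise `none`; use `OK_congr`. -/
theorem exists_acc (C : T → B → Set X) (Y : T → I → X) (ρ : X → I) :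
    ∃ acc : T → Option B, (∀ t b, acc t = some b → OK C Y ρ acc t b) ∧
      (∀ t, acc t = none → ∀ b, ¬ OK C Y ρ acc t b) := by
  classical
  let F : ∀ t : T, (∀ t', t' < t → Option B) → Option B := fun t r =>
    if h : ∃ b, OK C Y ρ (fun t' => if h' : t' < t then r t' h' else none) t b then some h.choose
    else none
  let acc : T → Option B := (wellFounded_lt (α := T)).fix F
  have hacc : ∀ t, acc t = F t (fun t' _ => acc t') := fun t => WellFounded.fix_eq _ F t
  have hOK : ∀ t b, OK C Y ρ (fun t' => if t' < t then acc t' else none) t b ↔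
      OK C Y ρ acc t b := by
    intro t b
    refine OK_congr C Y ρ _ _ t b fun t' ht' => ?_
    simp only [if_pos ht']
  refine ⟨acc, fun t b hb => ?_, fun t ht b hb => ?_⟩
  · rw [hacc] at hb
    by_cases h : ∃ b, OK C Y ρ (fun t' => if t' < t then acc t' else none) t b
    · have h1 : F t (fun t' _ => acc t') = some h.choose := dif_pos h
      rw [h1] at hb
      have h2 := h.choose_spec
      rw [Option.some.inj hb, hOK] at h2
      exact h2
    · have h1 : F t (fun t' _ => acc t') = none := dif_neg h
      rw [h1] at hb
      exact absurd hb (by simp)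
  · rw [hacc] at ht
    have h : ∃ b, OK C Y ρ (fun t' => if t' < t then acc t' else none) t b :=
      ⟨b, (hOK t b).2 hb⟩
    have h1 : F t (fun t' _ => acc t') = some h.choose := dif_pos h
    rw [h1] at ht
    exact absurd ht (by simp)

end Pool.Agent.H.MP_353193_lc
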