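import Pool.Agent.H.MP_353193_lc.DefsR

/-!
# No loops, no cyclic triangles
-/

set_option autoImplicit false

open Cardinal Ordinal Set

universe u

namespace Pool.Agent.H.MP_353193_lc

variable {X I T B : Type u} [LinearOrder T] [WellFoundedLT T]

/-- If `Y t i` lies in the cone accepted at `t'`, then `t' < t`: otherwise `t ≤ t'` and the second clause of `OK` at `t'`
says `Y t i ∉ C t' b'`. -/
theorem lt_of_target_mem (C : T → B → Set X) (Y : T → I → X) (ρ : X → I) (acc : T → Option B)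
    (hacc : ∀ t b, acc t = some b → OK C Y ρ acc t b) (t t' : T) (b' : B) (i : I) (h' : acc t' = some b')
    (hm : Y t i ∈ C t' b') : t' < t := by
  by_contra hlt
  exact (hacc t' b' h').2.1 t (not_lt.1 hlt) i hm

/-- No loops: if `x ∈ C t b` and `x = Y t (ρ x)` then the second clause of `OK` at `t` (with `t' = t`) is violated. -/
theorem AdjA_irrefl (C : T → B → Set X) (Y : T → I → X) (ρ : X → I) (acc : T → Option B)
    (hacc : ∀ t b, acc t = some b → OK C Y ρ acc t b) (x : X) : ¬ AdjA C Y ρ acc x x := by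
  rintro ⟨t, b, hb, h⟩
  have h1 : x ∈ C t b ∧ x = Y t (ρ x) := h.elim id id
  have h2 := (hacc t b hb).2.1 t le_rfl (ρ x)
  rw [← h1.2] at h2
  exact h2 h1.1

/-- No cyclic triangle `x → y → z → x`: with tasks `t1, t2, t3`, `lt_of_target_mem` gives `t2 < t1` (as `y = Y t1 _` is in
the cone of `t2`), `t3 < t2` and `t1 < t3`. -/
theorem no_cyclic (C : T → B → Set X) (Y : T → I → X) (ρ : X → I) (acc : T → Option B)
    (hacc : ∀ t b, acc t = some b → OK C Y ρ acc t b) (x y z : X) (t1 t2 t3 : T) (b1 b2 b3 : B)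
    (h1 : acc t1 = some b1) (h2 : acc t2 = some b2) (h3 : acc t3 = some b3)
    (a1 : Arr C Y ρ t1 b1 x y) (a2 : Arr C Y ρ t2 b2 y z) (a3 : Arr C Y ρ t3 b3 z x) : False := by
  have l21 : t2 < t1 := lt_of_target_mem C Y ρ acc hacc t1 t2 b2 (ρ x) h2 (by
    rw [← a1.2]
    exact a2.1)
  have l32 : t3 < t2 := lt_of_target_mem C Y ρ acc hacc t2 t3 b3 (ρ y) h3 (by
    rw [← a2.2]
    exact a3.1)
  have l13 : t1 < t3 := lt_of_target_mem C Y ρ acc hacc t3 t1 b1 (ρ z) h1 (by
    rw [← a3.2]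
    exact a1.1)
  exact lt_irrefl _ ((l21.trans l13).trans l32)

end Pool.Agent.H.MP_353193_lc
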